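import Mathlib

namespace Pool.CM

/-- `x, y, z` in this cyclic order. -/
def cyc {α : Type*} [LinearOrder α] (x y z : α) : Prop :=
  (x < y ∧ y < z) ∨ (y < z ∧ z < x) ∨ (z < x ∧ x < y)

/-- A saddle: pairs `(a,b)`, `(c,d)` become `(a,d)`, `(c,b)`; `s` is its sign. -/
structure Lab (X : Type*) where
  a : X
  b : X
  c : X
  d : X
  s : Bool

variable {X : Type*} [DecidableEq X]

/-- The effect of a saddle. -/
def act (e : Lab X) (m : X → X) : X → X := fun z =>
  if z = e.a then e.d else if z = e.b then e.c else if z = e.c then e.b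
  else if z = e.d then e.a else m z

/-- No crossing. -/
def NC (pos : X → ℤ) (S : Finset X) (m : X → X) : Prop :=
  ∀ x ∈ S, ∀ y ∈ S, ¬ (pos x < pos y ∧ pos y < pos (m x) ∧ pos (m x) < pos (m y))

/-- Noncrossing perfect matchings of `S` between the two colours. -/
structure IsSt (pos : X → ℤ) (col : X → Bool) (S : Finset X) (m : X → X) : Prop where
  mem : ∀ x ∈ S, m x ∈ S
  inv : ∀ x, m (m x) = x
  col : ∀ x ∈ S, col (m x) ≠ col x
  nc : NC pos S m

/-- The saddle `e` may be applied to `m`. -/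
structure Ok (pos : X → ℤ) (col : X → Bool) (S : Finset X) (m : X → X) (e : Lab X) :
    Prop where
  ha : e.a ∈ S
  hc : e.c ∈ S
  hab : m e.a = e.b
  hcd : m e.c = e.d
  hac : e.a ≠ e.c
  hcol : col e.a = col e.c
  sg : cyc (pos e.a) (pos e.b) (pos e.d) ↔ col e.a = e.s
  nc : NC pos S (act e m)

/-- The point `v` takes part in the saddle. -/
def Touch (e : Lab X) (v : X) : Prop := v = e.a ∨ v = e.b ∨ v = e.c ∨ v = e.d

instance (e : Lab X) (v : X) : Decidable (Touch e v) := by
  unfold Touch; infer_instance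

/-- Two chords do not cross. -/
def NCr (p q r s : ℤ) : Prop :=
  ¬ (p < r ∧ r < q ∧ q < s) ∧ ¬ (r < p ∧ p < s ∧ s < q) ∧
  ¬ (q < r ∧ r < p ∧ p < s) ∧ ¬ (r < q ∧ q < s ∧ s < p) ∧
  ¬ (p < s ∧ s < q ∧ q < r) ∧ ¬ (s < p ∧ p < r ∧ r < q) ∧
  ¬ (q < s ∧ s < p ∧ p < r) ∧ ¬ (s < q ∧ q < r ∧ r < p)

section basic

variable {pos : X → ℤ} {col : X → Bool} {S : Finset X} {m : X → X} {e : Lab X}

theorem IsSt.ncr (h : IsSt pos col S m) {x y : X} (hx : x ∈ S) (hy : y ∈ S) :
    NCr (pos x) (pos (m x)) (pos y) (pos (m y)) := by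
  have h1 := h.nc x hx y hy
  have h2 := h.nc y hy x hx
  have h3 := h.nc (m x) (h.mem x hx) y hy
  have h4 := h.nc y hy (m x) (h.mem x hx)
  have h5 := h.nc x hx (m y) (h.mem y hy)
  have h6 := h.nc (m y) (h.mem y hy) x hx
  have h7 := h.nc (m x) (h.mem x hx) (m y) (h.mem y hy)
  have h8 := h.nc (m y) (h.mem y hy) (m x) (h.mem x hx)
  rw [h.inv] at h3 h4 h5 h6 h7 h8
  rw [h.inv] at h7 h8
  exact ⟨h1, h2, h3, h4, h5, h6, h7, h8⟩

theorem IsSt.ne (h : IsSt pos col S m) {x : X} (hx : x ∈ S) : m x ≠ x := by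
  intro h1
  exact h.col x hx (by rw [h1])

theorem Ok.hb (h : IsSt pos col S m) (k : Ok pos col S m e) : e.b ∈ S := by
  rw [← k.hab]; exact h.mem _ k.ha

theorem Ok.hd (h : IsSt pos col S m) (k : Ok pos col S m e) : e.d ∈ S := by
  rw [← k.hcd]; exact h.mem _ k.hc

theorem Ok.mb (h : IsSt pos col S m) (k : Ok pos col S m e) : m e.b = e.a := by
  rw [← k.hab]; exact h.inv _

theorem Ok.md (h : IsSt pos col S m) (k : Ok pos col S m e) : m e.d = e.c := by
  rw [← k.hcd]; exact h.inv _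

theorem Ok.colb (h : IsSt pos col S m) (k : Ok pos col S m e) : col e.b ≠ col e.a := by
  rw [← k.hab]; exact h.col _ k.ha

theorem Ok.cold (h : IsSt pos col S m) (k : Ok pos col S m e) : col e.d ≠ col e.c := by
  rw [← k.hcd]; exact h.col _ k.hc

theorem Ok.ab (h : IsSt pos col S m) (k : Ok pos col S m e) : e.a ≠ e.b := by
  intro h1; exact k.colb h (by rw [h1])

theorem Ok.cd (h : IsSt pos col S m) (k : Ok pos col S m e) : e.c ≠ e.d := by
  intro h1; exact k.cold h (by rw [h1])

theorem Ok.bc (h : IsSt pos col S m) (k : Ok pos col S m e) : e.b ≠ e.c := by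
  intro h1; exact k.colb h (by rw [h1, k.hcol])

theorem Ok.ad (h : IsSt pos col S m) (k : Ok pos col S m e) : e.a ≠ e.d := by
  intro h1; exact k.cold h (by rw [← h1, k.hcol])

theorem Ok.bd (h : IsSt pos col S m) (k : Ok pos col S m e) : e.b ≠ e.d := by
  intro h1
  apply k.hac
  rw [← k.mb h, ← k.md h, h1]

theorem act_a : act e m e.a = e.d := by simp [act]

theorem Ok.act_b (h : IsSt pos col S m) (k : Ok pos col S m e) : act e m e.b = e.c := by
  simp [act, (k.ab h).symm]

theorem Ok.act_c (h : IsSt pos col S m) (k : Ok pos col S m e) : act e m e.c = e.b := by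
  simp [act, k.hac.symm, (k.bc h).symm]

theorem Ok.act_d (h : IsSt pos col S m) (k : Ok pos col S m e) : act e m e.d = e.a := by
  simp [act, (k.ad h).symm, (k.bd h).symm, (k.cd h).symm]

theorem act_other {z : X} (hz : ¬ Touch e z) : act e m z = m z := by
  unfold Touch at hz
  push Not at hz
  simp [act, hz.1, hz.2.1, hz.2.2.1, hz.2.2.2]

theorem Ok.touch_m (h : IsSt pos col S m) (k : Ok pos col S m e) {z : X}
    (hz : ¬ Touch e z) : ¬ Touch e (m z) := by
  intro h1
  apply hz
  have h2 : z = m (m z) := (h.inv z).symm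
  rcases h1 with h1 | h1 | h1 | h1
  · rw [h1, k.hab] at h2; exact Or.inr (Or.inl h2)
  · rw [h1, k.mb h] at h2; exact Or.inl h2
  · rw [h1, k.hcd] at h2; exact Or.inr (Or.inr (Or.inr h2))
  · rw [h1, k.md h] at h2; exact Or.inr (Or.inr (Or.inl h2))

theorem IsSt.act (h : IsSt pos col S m) (k : Ok pos col S m e) :
    IsSt pos col S (act e m) where
  mem := by
    intro x hx
    by_cases ht : Touch e x
    · rcases ht with rfl | rfl | rfl | rfl
      · rw [act_a]; exact k.hd h
      · rw [k.act_b h]; exact k.hc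
      · rw [k.act_c h]; exact k.hb h
      · rw [k.act_d h]; exact k.ha
    · rw [act_other ht]; exact h.mem x hx
  inv := by
    intro x
    by_cases ht : Touch e x
    · rcases ht with rfl | rfl | rfl | rfl
      · rw [act_a, k.act_d h]
      · rw [k.act_b h, k.act_c h]
      · rw [k.act_c h, k.act_b h]
      · rw [k.act_d h, act_a]
    · rw [act_other ht, act_other (k.touch_m h ht)]; exact h.inv x
  col := by
    intro x hx
    by_cases ht : Touch e x
    · rcases ht with rfl | rfl | rfl | rfl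
      · rw [act_a, k.hcol]; exact k.cold h
      · rw [k.act_b h, ← k.hcol]; exact (k.colb h).symm
      · rw [k.act_c h, ← k.hcol]; exact (k.colb h)
      · rw [k.act_d h, k.hcol]; exact (k.cold h).symm
    · rw [act_other ht]; exact h.col x hx
  nc := k.nc

end basic

/-- A legal list of saddles. -/
def Good (pos : X → ℤ) (col : X → Bool) (S : Finset X) : (X → X) → List (Lab X) → Prop
  | _, [] => True
  | m, e :: L => Ok pos col S m e ∧ Good pos col S (act e m) L

/-- The state after a list of saddles. -/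
def run : (X → X) → List (Lab X) → (X → X)
  | m, [] => m
  | m, e :: L => run (act e m) L

section lists

variable {pos : X → ℤ} {col : X → Bool} {S : Finset X}

theorem run_append (L M : List (Lab X)) (m : X → X) : run m (L ++ M) = run (run m L) M := by
  induction L generalizing m with
  | nil => rfl
  | cons e L ih => exact ih _

theorem good_append (L M : List (Lab X)) (m : X → X) :
    Good pos col S m (L ++ M) ↔ Good pos col S m L ∧ Good pos col S (run m L) M := by
  induction L generalizing m with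
  | nil => simp [Good, run]
  | cons e L ih =>
    simp only [List.cons_append, Good, run]
    rw [ih]
    tauto

theorem IsSt.run {m : X → X} (L : List (Lab X)) (h : IsSt pos col S m)
    (k : Good pos col S m L) : IsSt pos col S (run m L) := by
  induction L generalizing m with
  | nil => exact h
  | cons e L ih => exact ih (h.act k.1) k.2

/-- No saddle of the list moves `v`. -/
def Free (v : X) (L : List (Lab X)) : Prop := ∀ e ∈ L, ¬ Touch e v

theorem run_free {v : X} (L : List (Lab X)) (m : X → X) (h : Free v L) :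
    run m L v = m v := by
  induction L generalizing m with
  | nil => rfl
  | cons e L ih =>
    have h1 : ¬ Touch e v := h e (by simp)
    have h2 : Free v L := fun f hf => h f (by simp [hf])
    show run (act e m) L v = m v
    rw [ih _ h2, act_other h1]

end lists

section comm

variable {pos : X → ℤ} {col : X → Bool} {S : Finset X}

theorem act_touch {e : Lab X} {z : X} (m n : X → X) (hz : Touch e z) :
    act e m z = act e n z := by
  unfold act
  rcases hz with rfl | rfl | rfl | rfl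
  · simp
  · by_cases h1 : e.b = e.a
    · simp [h1]
    · simp [h1]
  · by_cases h1 : e.c = e.a
    · simp [h1]
    · by_cases h2 : e.c = e.b
      · simp [h2]
      · simp [h1, h2]
  · by_cases h1 : e.d = e.a
    · simp [h1]
    · by_cases h2 : e.d = e.b
      · simp [h2]
      · by_cases h3 : e.d = e.c
        · simp [h3]
        · simp [h1, h2, h3]

/-- A saddle moves its four points among themselves. -/
theorem touch_act {e : Lab X} {z : X} (m : X → X) (hz : Touch e z) :
    Touch e (act e m z) := by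
  unfold act
  by_cases h1 : z = e.a
  · simp [h1, Touch]
  · by_cases h2 : z = e.b
    · rw [if_neg h1, if_pos h2]; simp [Touch]
    · by_cases h3 : z = e.c
      · rw [if_neg h1, if_neg h2, if_pos h3]; simp [Touch]
      · by_cases h4 : z = e.d
        · rw [if_neg h1, if_neg h2, if_neg h3, if_pos h4]; simp [Touch]
        · exact absurd hz (by unfold Touch; tauto)

/-- `I` does not alternate with its complement four times. -/
def CI (pos : X → ℤ) (S : Finset X) (I : X → Prop) : Prop :=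
  ∀ x ∈ S, ∀ y ∈ S, ∀ z ∈ S, ∀ t ∈ S, pos x < pos y → pos y < pos z → pos z < pos t →
    ¬ (I x ∧ ¬ I y ∧ I z ∧ ¬ I t) ∧ ¬ (¬ I x ∧ I y ∧ ¬ I z ∧ I t)

theorem pres_act_off {I : X → Prop} {m : X → X} {f : Lab X}
    (hm : ∀ x ∈ S, (I x ↔ I (m x))) (hf : ∀ x, Touch f x → ¬ I x) :
    ∀ x ∈ S, (I x ↔ I (act f m x)) := by
  intro x hx
  by_cases h1 : Touch f x
  · exact iff_of_false (hf x h1) (hf _ (touch_act m h1))
  · rw [act_other h1]; exact hm x hx

theorem pres_act_on {I : X → Prop} {m : X → X} {f : Lab X}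
    (hm : ∀ x ∈ S, (I x ↔ I (m x))) (hf : ∀ x, Touch f x → I x) :
    ∀ x ∈ S, (I x ↔ I (act f m x)) := by
  intro x hx
  by_cases h1 : Touch f x
  · exact iff_of_true (hf x h1) (hf _ (touch_act m h1))
  · rw [act_other h1]; exact hm x hx

theorem commute {m : X → X} {e f : Lab X} {I : X → Prop} (hI : CI pos S I)
    (h : IsSt pos col S m) (k : Ok pos col S m e) (l : Ok pos col S (act e m) f)
    (hm : ∀ x ∈ S, (I x ↔ I (m x)))
    (he : ∀ x, Touch e x → I x) (hf : ∀ x, Touch f x → ¬ I x) :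
    Ok pos col S m f ∧ Ok pos col S (act f m) e ∧
      act e (act f m) = act f (act e m) := by
  have dis : ∀ x, Touch e x → ¬ Touch f x := fun x h1 h2 => hf x h2 (he x h1)
  have dis' : ∀ x, Touch f x → ¬ Touch e x := fun x h1 h2 => hf x h1 (he x h2)
  have eq : act e (act f m) = act f (act e m) := by
    funext z
    by_cases h1 : Touch e z
    · rw [act_other (dis z h1)]; exact act_touch _ _ h1
    · by_cases h2 : Touch f z
      · rw [act_other h1]; exact act_touch _ _ h2
      · rw [act_other h1, act_other h2, act_other h2, act_other h1]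
  have ta : Touch f f.a := Or.inl rfl
  have tc : Touch f f.c := Or.inr (Or.inr (Or.inl rfl))
  have sa : Touch e e.a := Or.inl rfl
  have sc : Touch e e.c := Or.inr (Or.inr (Or.inl rfl))
  have h' := h.act k
  refine ⟨⟨l.ha, l.hc, ?_, ?_, l.hac, l.hcol, l.sg, ?_⟩,
    ⟨k.ha, k.hc, ?_, ?_, k.hac, k.hcol, k.sg, ?_⟩, eq⟩
  · rw [← l.hab, act_other (dis' _ ta)]
  · rw [← l.hcd, act_other (dis' _ tc)]
  · intro x hx y hy hc
    have key : ∀ z ∈ S, ¬ I z → act f m z = act f (act e m) z := by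
      intro z hz hiz
      by_cases h2 : Touch f z
      · exact act_touch _ _ h2
      · rw [act_other h2, act_other h2, act_other (fun h3 => hiz (he z h3))]
    have key2 : ∀ z ∈ S, I z → act f m z = m z := by
      intro z hz hiz
      exact act_other (fun h3 => hf z h3 hiz)
    have hx' : act f m x ∈ S := by
      by_cases h2 : I x
      · rw [key2 x hx h2]; exact h.mem x hx
      · rw [key x hx h2]; exact (h'.act l).mem x hx
    have hy' : act f m y ∈ S := by
      by_cases h2 : I y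
      · rw [key2 y hy h2]; exact h.mem y hy
      · rw [key y hy h2]; exact (h'.act l).mem y hy
    have hp := pres_act_off hm hf
    have hci := hI x hx y hy _ hx' _ hy' hc.1 hc.2.1 hc.2.2
    have hpx := hp x hx
    have hpy := hp y hy
    by_cases h1 : I x
    · by_cases h2 : I y
      · rw [key2 x hx h1, key2 y hy h2] at hc
        exact h.nc x hx y hy hc
      · exact hci.1 ⟨h1, h2, hpx.1 h1, fun h3 => h2 (hpy.2 h3)⟩
    · by_cases h2 : I y
      · exact hci.2 ⟨h1, h2, fun h3 => h1 (hpx.2 h3), hpy.1 h2⟩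
      · rw [key x hx h1, key y hy h2] at hc
        exact l.nc x hx y hy hc
  · rw [act_other (dis _ sa)]; exact k.hab
  · rw [act_other (dis _ sc)]; exact k.hcd
  · rw [eq]; exact l.nc

theorem push_right {I : X → Prop} (hI : CI pos S I) {e : Lab X}
    (he : ∀ x, Touch e x → I x) (R : List (Lab X)) (L : List (Lab X)) :
    ∀ m, IsSt pos col S m → (∀ x ∈ S, (I x ↔ I (m x))) →
      (∀ f ∈ L, ∀ x, Touch f x → ¬ I x) → Good pos col S m (e :: (L ++ R)) →
      Good pos col S m (L ++ e :: R) ∧ run m (L ++ e :: R) = run m (e :: (L ++ R)) := by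
  induction L with
  | nil => intro m _ _ _ hg; exact ⟨hg, rfl⟩
  | cons f L ih =>
    intro m h hm hL hg
    have hf : ∀ x, Touch f x → ¬ I x := hL f (by simp)
    have hL' : ∀ g ∈ L, ∀ x, Touch g x → ¬ I x := fun g hg => hL g (by simp [hg])
    obtain ⟨k, l, hg'⟩ := hg
    obtain ⟨c1, c2, c3⟩ := commute hI h k l hm he hf
    have := ih (act f m) (h.act c1) (pres_act_off hm hf) hL'
      ⟨c2, by rw [c3]; exact hg'⟩
    refine ⟨⟨c1, this.1⟩, ?_⟩
    have h2 := this.2
    show run (act f m) (L ++ e :: R) = run (act f (act e m)) (L ++ R)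
    rw [h2]
    show run (act e (act f m)) (L ++ R) = _
    rw [c3]

theorem push_left {I : X → Prop} (hI : CI pos S I) {e : Lab X}
    (he : ∀ x, Touch e x → ¬ I x) (R : List (Lab X)) (L : List (Lab X)) :
    ∀ m, IsSt pos col S m → (∀ x ∈ S, (I x ↔ I (m x))) →
      (∀ f ∈ L, ∀ x, Touch f x → I x) → Good pos col S m (L ++ e :: R) →
      Good pos col S m (e :: (L ++ R)) ∧ run m (e :: (L ++ R)) = run m (L ++ e :: R) := by
  induction L with
  | nil => intro m _ _ _ hg; exact ⟨hg, rfl⟩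
  | cons f L ih =>
    intro m h hm hL hg
    have hf : ∀ x, Touch f x → I x := hL f (by simp)
    have hL' : ∀ g ∈ L, ∀ x, Touch g x → I x := fun g hg => hL g (by simp [hg])
    obtain ⟨k, hg'⟩ := hg
    obtain ⟨⟨l, hg2⟩, hr⟩ := ih (act f m) (h.act k) (pres_act_on hm hf) hL' hg'
    obtain ⟨c1, c2, c3⟩ := commute hI h k l hm hf he
    refine ⟨⟨c1, c2, ?_⟩, ?_⟩
    · show Good pos col S (act f (act e m)) (L ++ R)
      rw [c3]; exact hg2
    · show run (act f (act e m)) (L ++ R) = run (act f m) (L ++ e :: R)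
      rw [c3, ← hr]; rfl

end comm

section sorting

variable {pos : X → ℤ} {col : X → Bool} {S : Finset X}

theorem NCr.first {p q r s : ℤ} (h : NCr p q r s) (h1 : p < r) (h2 : p < s) (h3 : q ≠ r)
    (h4 : q ≠ s) : (r < q ↔ s < q) := by
  obtain ⟨g1, -, -, -, g5, -, -, -⟩ := h
  constructor <;> intro <;> omega

theorem side {m : X → X} {e : Lab X} {v w : X} (hinj : Set.InjOn pos S)
    (hv : ∀ x ∈ S, x ≠ v → pos v < pos x) (h : IsSt pos col S m)
    (k : Ok pos col S m e) (hvS : v ∈ S) (hvw : m v = w) (hfree : ¬ Touch e v) :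
    (∀ x, Touch e x → pos v < pos x ∧ pos x < pos w) ∨
      (∀ x, Touch e x → pos w < pos x) := by
  have hwS : w ∈ S := hvw ▸ h.mem v hvS
  have hw : ¬ Touch e w := hvw ▸ k.touch_m h hfree
  have hav : act e m v = w := by rw [act_other hfree]; exact hvw
  have n1 := h.ncr hvS k.ha
  have n2 := h.ncr hvS k.hc
  have n3 := (h.act k).ncr hvS k.ha
  rw [hvw, k.hab] at n1
  rw [hvw, k.hcd] at n2
  rw [hav, act_a] at n3
  have hbS := k.hb h
  have hdS := k.hd h
  have haS := k.ha
  have hcS := k.hc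
  unfold Touch at hfree hw
  push Not at hfree hw
  have a1 := hv _ haS hfree.1.symm
  have b1 := hv _ hbS hfree.2.1.symm
  have c1 := hv _ hcS hfree.2.2.1.symm
  have d1 := hv _ hdS hfree.2.2.2.symm
  have a2 : pos w ≠ pos e.a := fun h1 => hw.1 (hinj hwS haS h1)
  have b2 : pos w ≠ pos e.b := fun h1 => hw.2.1 (hinj hwS hbS h1)
  have c2 : pos w ≠ pos e.c := fun h1 => hw.2.2.1 (hinj hwS hcS h1)
  have d2 : pos w ≠ pos e.d := fun h1 => hw.2.2.2 (hinj hwS hdS h1)
  have q1 := n1.first a1 b1 a2 b2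
  have q2 := n2.first c1 d1 c2 d2
  have q3 := n3.first a1 d1 a2 d2
  clear n1 n2 n3
  by_cases h1 : pos e.a < pos w
  · left
    rintro x (rfl | rfl | rfl | rfl)
    · exact ⟨a1, h1⟩
    · exact ⟨b1, by omega⟩
    · exact ⟨c1, by omega⟩
    · exact ⟨d1, by omega⟩
  · right
    rintro x (rfl | rfl | rfl | rfl)
    · omega
    · omega
    · omega
    · omega

theorem ci_le (t : ℤ) : CI pos S (fun x => pos x ≤ t) := by
  intro x _ y _ z _ w _ h1 h2 h3
  constructor
  · rintro ⟨g1, g2, g3, g4⟩; omega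
  · rintro ⟨g1, g2, g3, g4⟩; omega

theorem ci_lt (s t : ℤ) : CI pos S (fun x => s < pos x ∧ pos x < t) := by
  intro x _ y _ z _ w _ h1 h2 h3
  constructor
  · rintro ⟨g1, g2, g3, g4⟩; omega
  · rintro ⟨g1, g2, g3, g4⟩; omega

theorem sort_out {v w : X} (hinj : Set.InjOn pos S)
    (hv : ∀ x ∈ S, x ≠ v → pos v < pos x) (hvS : v ∈ S) (L : List (Lab X)) :
    ∀ m, IsSt pos col S m → m v = w → Free v L → Good pos col S m L →
    ∃ Lo Li : List (Lab X),
      (∀ f ∈ Lo, ∀ x, Touch f x → pos w < pos x) ∧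
      (∀ f ∈ Li, ∀ x, Touch f x → pos v < pos x ∧ pos x < pos w) ∧
      Good pos col S m (Lo ++ Li) ∧ run m (Lo ++ Li) = run m L ∧
      List.Perm (Lo ++ Li) L := by
  induction L with
  | nil => intro m _ _ _ _; exact ⟨[], [], by simp, by simp, trivial, rfl, by simp⟩
  | cons e L ih =>
    intro m h hvw hfr hg
    obtain ⟨k, hg'⟩ := hg
    have hfe : ¬ Touch e v := hfr e (by simp)
    have hfL : Free v L := fun f hf => hfr f (by simp [hf])
    have hav : act e m v = w := by rw [act_other hfe]; exact hvw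
    obtain ⟨Lo, Li, h1, h2, h3, h4, h5⟩ := ih (act e m) (h.act k) hav hfL hg'
    rcases side hinj hv h k hvS hvw hfe with hin | hout
    · have hwS : w ∈ S := hvw ▸ h.mem v hvS
      have hm : ∀ x ∈ S, (pos x ≤ pos w ↔ pos (m x) ≤ pos w) := by
        intro x hx
        have n1 := h.ncr hvS hx
        rw [hvw] at n1
        by_cases e1 : x = v
        · subst e1
          rw [hvw]
          have := hv w hwS (by rw [← hvw]; exact h.ne hvS)
          constructor <;> intro <;> omega
        · by_cases e2 : x = w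
          · subst e2
            rw [← hvw, h.inv]
            have := hv _ hx e1
            rw [← hvw] at this
            constructor <;> intro <;> omega
          · have p1 := hv x hx e1
            have e3 : m x ≠ v := by
              intro h6; apply e2; rw [← hvw, ← h6, h.inv]
            have e4 : m x ≠ w := by
              intro h6; apply e1; rw [← h.inv x, h6, ← hvw, h.inv]
            have p2 := hv _ (h.mem x hx) e3
            have p3 : pos w ≠ pos x := fun h6 => e2 (hinj hx hwS h6.symm)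
            have p4 : pos w ≠ pos (m x) := fun h6 => e4 (hinj (h.mem x hx) hwS h6.symm)
            have q1 := n1.first p1 p2 p3 p4
            constructor <;> intro <;> omega
      have := push_right (I := fun x => pos x ≤ pos w) (ci_le _) (e := e)
        (fun x hx => (hin x hx).2.le) Li Lo m h hm
        (fun f hf x hx => by have := h1 f hf x hx; omega) ⟨k, h3⟩
      refine ⟨Lo, e :: Li, h1, ?_, this.1, ?_, ?_⟩
      · intro f hf
        rcases List.mem_cons.1 hf with rfl | hf
        · exact hin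
        · exact h2 f hf
      · rw [this.2]; exact h4
      · exact List.perm_middle.trans (List.Perm.cons e h5)
    · refine ⟨e :: Lo, Li, ?_, h2, ⟨k, h3⟩, h4, List.Perm.cons e h5⟩
      intro f hf
      rcases List.mem_cons.1 hf with rfl | hf
      · exact hout
      · exact h1 f hf

end sorting

section slide

variable {pos : X → ℤ} {col : X → Bool} {S : Finset X}

theorem NCr.iff {p q r s : ℤ} (h : NCr p q r s) (h1 : p ≠ r) (h2 : p ≠ s)
    (h3 : q ≠ r) (h4 : q ≠ s) : ((p < r ∧ r < q) ↔ (p < s ∧ s < q)) := by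
  obtain ⟨g1, g2, -, -, g5, g6, -, -⟩ := h
  constructor
  · rintro ⟨a1, a2⟩
    rcases lt_or_gt_of_ne h2 with b | b
    · rcases lt_or_gt_of_ne h4 with c | c
      · exact absurd ⟨a1, a2, c⟩ g1
      · exact ⟨b, c⟩
    · exact absurd ⟨b, a1, a2⟩ g6
  · rintro ⟨a1, a2⟩
    rcases lt_or_gt_of_ne h1 with b | b
    · rcases lt_or_gt_of_ne h3 with c | c
      · exact absurd ⟨a1, a2, c⟩ g5
      · exact ⟨b, c⟩
    · exact absurd ⟨b, a1, a2⟩ g2

theorem slide {n : X → X} {v w1 u1 w2 u2 w3 : X} {s : Bool} (hinj : Set.InjOn pos S)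
    (hv : ∀ x ∈ S, x ≠ v → pos v < pos x) (h : IsSt pos col S n)
    (k1 : Ok pos col S n ⟨v, w1, u1, w2, s⟩)
    (k2 : Ok pos col S (act ⟨v, w1, u1, w2, s⟩ n) ⟨v, w2, u2, w3, s⟩)
    (h12 : pos w1 < pos w2) (h23 : pos w2 < pos w3) :
    Ok pos col S n ⟨u1, w2, u2, w3, s⟩ ∧
    Ok pos col S (act ⟨u1, w2, u2, w3, s⟩ n) ⟨v, w1, u1, w3, s⟩ ∧
    act ⟨v, w1, u1, w3, s⟩ (act ⟨u1, w2, u2, w3, s⟩ n) =
      act ⟨v, w2, u2, w3, s⟩ (act ⟨v, w1, u1, w2, s⟩ n) := by
  have hvS : v ∈ S := k1.ha
  have hu1 : u1 ∈ S := k1.hc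
  have hw1 : w1 ∈ S := k1.hb h
  have hw2 : w2 ∈ S := k1.hd h
  have h1 := h.act k1
  have h2 := h1.act k2
  have hu2 : u2 ∈ S := k2.hc
  have hw3 : w3 ∈ S := k2.hd h1
  have nv : n v = w1 := k1.hab
  have nu1 : n u1 = w2 := k1.hcd
  have nw1 : n w1 = v := by rw [← nv, h.inv]
  have nw2 : n w2 = u1 := by rw [← nu1, h.inv]
  -- order
  have vw1 : v ≠ w1 := k1.ab h
  have vu1 : v ≠ u1 := k1.hac
  have vw2 : v ≠ w2 := k1.ad h
  have w1u1 : w1 ≠ u1 := k1.bc h
  have w1w2 : w1 ≠ w2 := k1.bd h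
  have u1w2 : u1 ≠ w2 := k1.cd h
  have vu2 : v ≠ u2 := k2.hac
  have vw3 : v ≠ w3 := k2.ad h1
  have w2u2 : w2 ≠ u2 := k2.bc h1
  have w2w3 : w2 ≠ w3 := k2.bd h1
  have u2w3 : u2 ≠ w3 := k2.cd h1
  have pv1 := hv w1 hw1 vw1.symm
  have pv2 := hv u1 hu1 vu1.symm
  have pv3 := hv u2 hu2 vu2.symm
  have n1u1 : act (⟨v, w1, u1, w2, s⟩ : Lab X) n u1 = w1 := k1.act_c h
  have n1v : act (⟨v, w1, u1, w2, s⟩ : Lab X) n v = w2 := act_a
  have n2v : act ⟨v, w2, u2, w3, s⟩ (act ⟨v, w1, u1, w2, s⟩ n) v = w3 := act_a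
  have n2u2 : act ⟨v, w2, u2, w3, s⟩ (act ⟨v, w1, u1, w2, s⟩ n) u2 = w2 := k2.act_c h1
  have o1 : pos w1 < pos u1 := by
    have t := h.ncr hvS hu1
    rw [nv, nu1] at t
    have p1 : pos w1 ≠ pos u1 := fun g => w1u1 (hinj hw1 hu1 g)
    have := t.1
    omega
  have o2 : pos u1 < pos w2 := by
    have t := h1.ncr hvS hu1
    rw [n1v, n1u1] at t
    have p1 : pos u1 ≠ pos w2 := fun g => u1w2 (hinj hu1 hw2 g)
    have := t.2.2.2.2.1
    omega
  have n1u2 : act (⟨v, w1, u1, w2, s⟩ : Lab X) n u2 = w3 := k2.hcd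
  have o3 : pos w2 < pos u2 := by
    have t := h1.ncr hvS hu2
    rw [n1v, n1u2] at t
    have p1 : pos w2 ≠ pos u2 := fun g => w2u2 (hinj hw2 hu2 g)
    have := t.1
    omega
  have o4 : pos u2 < pos w3 := by
    have t := h2.ncr hvS hu2
    rw [n2v, n2u2] at t
    have p1 : pos u2 ≠ pos w3 := fun g => u2w3 (hinj hu2 hw3 g)
    have := t.2.2.2.2.1
    omega
  -- further distinctness
  have w1u2 : w1 ≠ u2 := by rintro rfl; omega
  have w1w3 : w1 ≠ w3 := by rintro rfl; omega
  have u1u2 : u1 ≠ u2 := by rintro rfl; omega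
  have u1w3 : u1 ≠ w3 := by rintro rfl; omega
  have nu2 : n u2 = w3 := by
    rw [← n1u2, act_other]
    unfold Touch
    simp only
    push Not
    exact ⟨vu2.symm, w1u2.symm, u1u2.symm, w2u2.symm⟩
  have nw3 : n w3 = u2 := by rw [← nu2, h.inv]
  have hs : col v = s := by
    have := k1.sg
    simp only at this
    exact this.1 (Or.inl ⟨pv1, h12⟩)
  have cu1 : col u1 = s := by rw [← hs]; exact k1.hcol.symm
  have cu2 : col u2 = s := by rw [← hs]; exact k2.hcol.symm
  -- generic chords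
  have gen : ∀ z ∈ S, z ≠ u1 → z ≠ w2 → z ≠ u2 → z ≠ w3 →
      ((pos u1 < pos z ∧ pos z < pos w3) ↔ (pos u1 < pos (n z) ∧ pos (n z) < pos w3)) ∧
      ((pos w2 < pos z ∧ pos z < pos u2) ↔ (pos w2 < pos (n z) ∧ pos (n z) < pos u2)) := by
    intro z hz z1 z2 z3 z4
    by_cases zv : z = v
    · subst zv
      rw [nv]
      constructor <;> constructor <;> intro <;> omega
    by_cases zw : z = w1
    · subst zw
      rw [nw1]
      constructor <;> constructor <;> intro <;> omega
    have hnz := h.mem z hz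
    have m1 : n z ≠ u1 := fun g => z2 (by rw [← h.inv z, g, nu1])
    have m2 : n z ≠ w2 := fun g => z1 (by rw [← h.inv z, g, nw2])
    have m3 : n z ≠ u2 := fun g => z4 (by rw [← h.inv z, g, nu2])
    have m4 : n z ≠ w3 := fun g => z3 (by rw [← h.inv z, g, nw3])
    have n2z : act ⟨v, w2, u2, w3, s⟩ (act ⟨v, w1, u1, w2, s⟩ n) z = n z := by
      rw [act_other, act_other]
      · unfold Touch; simp only; push Not; exact ⟨zv, zw, z1, z2⟩
      · unfold Touch; simp only; push Not; exact ⟨zv, z2, z3, z4⟩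
    have n2w2 : act ⟨v, w2, u2, w3, s⟩ (act ⟨v, w1, u1, w2, s⟩ n) w2 = u2 := k2.act_b h1
    have t1 := h.ncr hu1 hz
    have t2 := h.ncr hu2 hz
    have t3 := h2.ncr hw2 hz
    rw [nu1] at t1
    rw [nu2] at t2
    rw [n2z, n2w2] at t3
    have q : ∀ {x y : X}, x ∈ S → y ∈ S → x ≠ y → pos y ≠ pos x :=
      fun hx hy hxy g => hxy (hinj hy hx g).symm
    have r1 := t1.iff (q hz hu1 z1) (q hnz hu1 m1) (q hz hw2 z2) (q hnz hw2 m2)
    have r2 := t2.iff (q hz hu2 z3) (q hnz hu2 m3) (q hz hw3 z4) (q hnz hw3 m4)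
    have r3 := t3.iff (q hz hw2 z2) (q hnz hw2 m2) (q hz hu2 z3) (q hnz hu2 m3)
    clear t1 t2 t3
    have e1 := q hz hw2 z2
    have e2 := q hnz hw2 m2
    have e3 := q hz hu2 z3
    have e4 := q hnz hu2 m3
    refine ⟨?_, r3⟩
    constructor <;> intro <;> omega
  have a1 : act ⟨u1, w2, u2, w3, s⟩ n u1 = w3 := act_a
  have a2 : act ⟨u1, w2, u2, w3, s⟩ n w2 = u2 := by simp [act, u1w2.symm]
  have a3 : act ⟨u1, w2, u2, w3, s⟩ n u2 = w2 := by simp [act, u1u2.symm, w2u2.symm]
  have a4 : act ⟨u1, w2, u2, w3, s⟩ n w3 = u1 := by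
    simp [act, u1w3.symm, w2w3.symm, u2w3.symm]
  have a5 : ∀ z, z ≠ u1 → z ≠ w2 → z ≠ u2 → z ≠ w3 →
      act ⟨u1, w2, u2, w3, s⟩ n z = n z := by
    intro z z1 z2 z3 z4
    simp [act, z1, z2, z3, z4]
  have eq : act ⟨v, w1, u1, w3, s⟩ (act ⟨u1, w2, u2, w3, s⟩ n) =
      act ⟨v, w2, u2, w3, s⟩ (act ⟨v, w1, u1, w2, s⟩ n) := by
    funext z
    by_cases z1 : z = v
    · subst z1; simp [act]
    by_cases z2 : z = w1
    · subst z2; simp [act, vw1.symm, w1w2, w1u2, w1w3]
    by_cases z3 : z = u1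
    · subst z3; simp [act, vu1.symm, w1u1.symm, u1w2, u1u2, u1w3]
    by_cases z4 : z = w2
    · subst z4; simp [act, vw2.symm, w1w2.symm, u1w2.symm, w2w3]
    by_cases z5 : z = u2
    · subst z5; simp [act, vu2.symm, w1u2.symm, u1u2.symm, w2u2.symm, u2w3]
    by_cases z6 : z = w3
    · subst z6; simp [act, vw3.symm, w1w3.symm, u1w3.symm, w2w3.symm, u2w3.symm]
    simp [act, z1, z2, z3, z4, z5, z6]
  have ncn : NC pos S (act ⟨u1, w2, u2, w3, s⟩ n) := by
    intro x hx y hy hc
    by_cases x1 : x = u1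
    · subst x1
      rw [a1] at hc
      by_cases y1 : y = x
      · subst y1; omega
      by_cases y2 : y = w2
      · subst y2; rw [a2] at hc; omega
      by_cases y3 : y = u2
      · subst y3; rw [a3] at hc; omega
      by_cases y4 : y = w3
      · subst y4; omega
      rw [a5 y y1 y2 y3 y4] at hc
      have := (gen y hy y1 y2 y3 y4).1
      omega
    by_cases x2 : x = w2
    · subst x2
      rw [a2] at hc
      by_cases y1 : y = u1
      · subst y1; omega
      by_cases y2 : y = x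
      · subst y2; omega
      by_cases y3 : y = u2
      · subst y3; omega
      by_cases y4 : y = w3
      · subst y4; omega
      rw [a5 y y1 y2 y3 y4] at hc
      have := (gen y hy y1 y2 y3 y4).2
      omega
    by_cases x3 : x = u2
    · subst x3; rw [a3] at hc; omega
    by_cases x4 : x = w3
    · subst x4; rw [a4] at hc; omega
    rw [a5 x x1 x2 x3 x4] at hc
    have gx := gen x hx x1 x2 x3 x4
    by_cases y1 : y = u1
    · subst y1; rw [a1] at hc; omega
    by_cases y2 : y = w2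
    · subst y2; rw [a2] at hc; omega
    by_cases y3 : y = u2
    · subst y3; rw [a3] at hc; omega
    by_cases y4 : y = w3
    · subst y4; rw [a4] at hc; omega
    rw [a5 y y1 y2 y3 y4] at hc
    exact h.nc x hx y hy hc
  refine ⟨⟨hu1, hu2, nu1, nu2, u1u2, ?_, ?_, ncn⟩,
    ⟨hvS, hu1, ?_, a1, vu1, k1.hcol, ?_, ?_⟩, eq⟩
  · simp only; rw [cu1, cu2]
  · simp only
    exact iff_of_true (Or.inl ⟨o2, h23⟩) cu1
  · simp only
    rw [a5 v vu1 vw2 vu2 vw3]; exact nv
  · simp only
    exact iff_of_true (Or.inl ⟨pv1, by omega⟩) hs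
  · rw [eq]; exact k2.nc

end slide

/-- The two conditions of a saddle on a predicate. -/
def Cnd (p : X → Prop) (e : Lab X) : Prop := (p e.a ↔ p e.c) ∧ (p e.b ↔ p e.d)

/-- Every invariant predicate is constant. -/
def Trans (S : Finset X) (m : X → X) (L : List (Lab X)) : Prop :=
  ∀ p : X → Prop, (∀ x ∈ S, (p x ↔ p (m x))) → (∀ e ∈ L, Cnd p e) →
    ∀ x ∈ S, ∀ y ∈ S, (p x ↔ p y)

/-- For each sign the saddles connect both colour classes. -/
def Conc (col : X → Bool) (S : Finset X) (L : List (Lab X)) : Prop :=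
  ∀ (s : Bool) (p : X → Prop), (∀ e ∈ L, e.s = s → Cnd p e) →
    ∀ x ∈ S, ∀ y ∈ S, col x = col y → (p x ↔ p y)

/-- Closed movies of a sphere. -/
structure Mov (pos : X → ℤ) (col : X → Bool) (S : Finset X) (m : X → X)
    (L : List (Lab X)) : Prop where
  inj : Set.InjOn pos S
  st : IsSt pos col S m
  good : Good pos col S m L
  closed : run m L = m
  len : L.length + 2 ≤ S.card
  trans : Trans S m L

/-- The rotation of positions used for the deletion. -/
def ff (V W1 W2 t : ℤ) : ℤ := if W1 < t ∧ t < W2 then t else t + (W2 - V)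

section deletion

variable {pos : X → ℤ} {col : X → Bool} {S : Finset X}

theorem inv_act {p : X → Prop} {m : X → X} {e : Lab X} (h : IsSt pos col S m)
    (k : Ok pos col S m e) (hp : ∀ x ∈ S, (p x ↔ p (m x))) (hc : Cnd p e) :
    ∀ x ∈ S, (p x ↔ p (act e m x)) := by
  intro x hx
  have h1 := hp _ k.ha
  have h2 := hp _ k.hc
  rw [k.hab] at h1
  rw [k.hcd] at h2
  obtain ⟨h3, h4⟩ := hc
  by_cases ht : Touch e x
  · rcases ht with rfl | rfl | rfl | rfl
    · rw [act_a]; tauto
    · rw [k.act_b h]; tauto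
    · rw [k.act_c h]; tauto
    · rw [k.act_d h]; tauto
  · rw [act_other ht]; exact hp x hx

theorem inv_run {p : X → Prop} (L : List (Lab X)) : ∀ {m : X → X}, IsSt pos col S m →
    Good pos col S m L → (∀ x ∈ S, (p x ↔ p (m x))) → (∀ e ∈ L, Cnd p e) →
    ∀ x ∈ S, (p x ↔ p (run m L x)) := by
  induction L with
  | nil => intro m _ _ hp _; exact hp
  | cons e L ih =>
    intro m h hg hp hc
    exact ih (h.act hg.1) hg.2 (inv_act h hg.1 hp (hc e (by simp)))
      (fun f hf => hc f (by simp [hf]))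

/-- Conjugation of a state. -/
def cj (w1 w2 : X) (n : X → X) : X → X := fun x => Equiv.swap w1 w2 (n (Equiv.swap w1 w2 x))

/-- Renaming of a saddle. -/
def rn (w1 w2 : X) (e : Lab X) : Lab X :=
  ⟨Equiv.swap w1 w2 e.a, Equiv.swap w1 w2 e.b, Equiv.swap w1 w2 e.c,
    Equiv.swap w1 w2 e.d, e.s⟩

theorem act_rn (w1 w2 : X) (e : Lab X) (n : X → X) :
    act (rn w1 w2 e) (cj w1 w2 n) = cj w1 w2 (act e n) := by
  funext x
  have key : ∀ y, (x = Equiv.swap w1 w2 y) ↔ (Equiv.swap w1 w2 x = y) := by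
    intro y
    constructor
    · rintro rfl; simp
    · rintro rfl; simp
  simp only [act, rn, cj, key]
  split_ifs <;> rfl

theorem run_rn (w1 w2 : X) (L : List (Lab X)) : ∀ n : X → X,
    run (cj w1 w2 n) (L.map (rn w1 w2)) = cj w1 w2 (run n L) := by
  induction L with
  | nil => intro n; rfl
  | cons e L ih =>
    intro n
    show run (act (rn w1 w2 e) (cj w1 w2 n)) (L.map (rn w1 w2)) = _
    rw [act_rn, ih]; rfl

theorem cj_cj (w1 w2 : X) (n : X → X) : cj w1 w2 (cj w1 w2 n) = n := by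
  funext x; simp [cj]

theorem act_eq_cj {n : X → X} {v w1 u w2 : X} {s : Bool} (h : IsSt pos col S n)
    (k : Ok pos col S n ⟨v, w1, u, w2, s⟩) :
    act ⟨v, w1, u, w2, s⟩ n = cj w1 w2 n := by
  have nv : n v = w1 := k.hab
  have nu : n u = w2 := k.hcd
  have nw1 : n w1 = v := by rw [← nv, h.inv]
  have nw2 : n w2 = u := by rw [← nu, h.inv]
  have vw1 : v ≠ w1 := k.ab h
  have vu : v ≠ u := k.hac
  have vw2 : v ≠ w2 := k.ad h
  have w1u : w1 ≠ u := k.bc h
  have w1w2 : w1 ≠ w2 := k.bd h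
  have uw2 : u ≠ w2 := k.cd h
  funext z
  unfold cj
  by_cases z1 : z = v
  · subst z1
    rw [Equiv.swap_apply_of_ne_of_ne vw1 vw2, nv, Equiv.swap_apply_left]
    exact act_a
  by_cases z2 : z = w1
  · subst z2
    rw [Equiv.swap_apply_left, nw2, Equiv.swap_apply_of_ne_of_ne w1u.symm uw2]
    exact k.act_b h
  by_cases z3 : z = u
  · subst z3
    rw [Equiv.swap_apply_of_ne_of_ne w1u.symm uw2, nu, Equiv.swap_apply_right]
    exact k.act_c h
  by_cases z4 : z = w2
  · subst z4
    rw [Equiv.swap_apply_right, nw1, Equiv.swap_apply_of_ne_of_ne vw1 vw2]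
    exact k.act_d h
  rw [Equiv.swap_apply_of_ne_of_ne z2 z4, Equiv.swap_apply_of_ne_of_ne]
  · simp [act, z1, z2, z3, z4]
  · intro g; apply z1; rw [← h.inv z, g, nw1]
  · intro g; apply z3; rw [← h.inv z, g, nw2]

/-- The new positions. -/
def npos (pos : X → ℤ) (v w1 w2 : X) : X → ℤ := fun x =>
  ff (pos v) (pos w1) (pos w2) (pos x)

theorem inside_iff {n : X → X} {v w x : X} (hinj : Set.InjOn pos S)
    (hv : ∀ x ∈ S, x ≠ v → pos v < pos x) (h : IsSt pos col S n) (hvS : v ∈ S)
    (hvw : n v = w) (hx : x ∈ S) (x1 : x ≠ v) (x2 : x ≠ w) :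
    (pos x < pos w ↔ pos (n x) < pos w) ∧ pos v < pos (n x) ∧ pos w ≠ pos (n x) ∧
      n x ≠ v ∧ n x ≠ w := by
  have hwS : w ∈ S := hvw ▸ h.mem v hvS
  have e3 : n x ≠ v := by intro h6; apply x2; rw [← hvw, ← h6, h.inv]
  have e4 : n x ≠ w := by intro h6; apply x1; rw [← h.inv x, h6, ← hvw, h.inv]
  have p1 := hv x hx x1
  have p2 := hv _ (h.mem x hx) e3
  have p3 : pos w ≠ pos x := fun h6 => x2 (hinj hx hwS h6.symm)
  have p4 : pos w ≠ pos (n x) := fun h6 => e4 (hinj (h.mem x hx) hwS h6.symm)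
  have n1 := h.ncr hvS hx
  rw [hvw] at n1
  exact ⟨n1.first p1 p2 p3 p4, p2, p4, e3, e4⟩

end deletion

section intlemmas


theorem ff_nc {V W1 W2 p q r s : ℤ} (h2 : W1 < W2)
    (hp : V < p) (hq : V < q) (hr : V < r) (hs : V < s)
    (p2 : W2 ≠ p) (q2 : W2 ≠ q) (r2 : W2 ≠ r) (s2 : W2 ≠ s)
    (hpq : p < W2 ↔ q < W2) (hrs : r < W2 ↔ s < W2) (hn : NCr p q r s) :
    ¬ (ff V W1 W2 p < ff V W1 W2 r ∧ ff V W1 W2 r < ff V W1 W2 q ∧
      ff V W1 W2 q < ff V W1 W2 s) := by
  rintro ⟨c1, c2, c3⟩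
  unfold ff at c1 c2 c3
  by_cases a : p < W2
  · have b := hpq.1 a
    clear hpq
    by_cases c : r < W2
    · have d := hrs.1 c
      clear hrs
      by_cases e1 : W1 < p
      · rw [if_pos ⟨e1, a⟩] at c1
        by_cases e2 : W1 < r
        · rw [if_pos ⟨e2, c⟩] at c1 c2
          by_cases e3 : W1 < q
          · rw [if_pos ⟨e3, b⟩] at c2 c3
            by_cases e4 : W1 < s
            · rw [if_pos ⟨e4, d⟩] at c3
              exact hn.1 ⟨c1, c2, c3⟩
            · exact hn.2.2.2.2.2.1 ⟨by omega, c1, c2⟩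
          · rw [if_neg (fun h => e3 h.1)] at c2 c3
            by_cases e4 : W1 < s
            · rw [if_pos ⟨e4, d⟩] at c3; omega
            · rw [if_neg (fun h => e4 h.1)] at c3
              exact hn.2.2.2.2.2.2.1 ⟨by omega, by omega, by omega⟩
        · rw [if_neg (fun h => e2 h.1)] at c1 c2
          by_cases e3 : W1 < q
          · rw [if_pos ⟨e3, b⟩] at c2 c3; omega
          · rw [if_neg (fun h => e3 h.1)] at c2 c3
            by_cases e4 : W1 < s
            · rw [if_pos ⟨e4, d⟩] at c3; omega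
            · rw [if_neg (fun h => e4 h.1)] at c3
              exact hn.2.2.2.1 ⟨by omega, by omega, by omega⟩
      · rw [if_neg (fun h => e1 h.1)] at c1
        by_cases e2 : W1 < r
        · rw [if_pos ⟨e2, c⟩] at c1 c2; omega
        · rw [if_neg (fun h => e2 h.1)] at c1 c2
          by_cases e3 : W1 < q
          · rw [if_pos ⟨e3, b⟩] at c2 c3; omega
          · rw [if_neg (fun h => e3 h.1)] at c2 c3
            by_cases e4 : W1 < s
            · rw [if_pos ⟨e4, d⟩] at c3; omega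
            · rw [if_neg (fun h => e4 h.1)] at c3
              exact hn.1 ⟨by omega, by omega, by omega⟩
    · have d : W2 < s := by omega
      rw [if_neg (by omega : ¬ (W1 < r ∧ r < W2))] at c1 c2
      split_ifs at c1 c2 <;> omega
  · have b : W2 < q := by omega
    rw [if_neg (by omega : ¬ (W1 < p ∧ p < W2))] at c1
    by_cases c : r < W2
    · have d := hrs.1 c
      split_ifs at c1 <;> omega
    · have d : W2 < s := by omega
      rw [if_neg (by omega : ¬ (W1 < r ∧ r < W2))] at c1 c2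
      rw [if_neg (by omega : ¬ (W1 < q ∧ q < W2))] at c2 c3
      rw [if_neg (by omega : ¬ (W1 < s ∧ s < W2))] at c3
      exact hn.1 ⟨by omega, by omega, by omega⟩

theorem ff_cyc_lt {V W1 W2 p q r : ℤ}
    (hp : V < p) (hq : V < q) (hr : V < r) (hp' : p < W2) (hq' : q < W2) (hr' : r < W2) :
    cyc (ff V W1 W2 p) (ff V W1 W2 q) (ff V W1 W2 r) ↔ cyc p q r := by
  unfold ff cyc
  split_ifs <;> constructor <;> intro <;> omega

theorem ff_cyc_gt {V W1 W2 p q r : ℤ} (hp : W2 < p) (hq : W2 < q) (hr : W2 < r) :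
    cyc (ff V W1 W2 p) (ff V W1 W2 q) (ff V W1 W2 r) ↔ cyc p q r := by
  unfold ff cyc
  split_ifs <;> constructor <;> intro <;> omega

/-- The same with the point at `W2` moved to `W1`. -/
def gg (V W1 W2 t : ℤ) : ℤ := if t = W2 then W1 + (W2 - V) else ff V W1 W2 t

theorem gg_gt {V W1 W2 p : ℤ} (h1 : V < W1) (h2 : W1 < W2) (hp : W1 < p) :
    ¬ (W2 < gg V W1 W2 p ∧ gg V W1 W2 p < W1 + (W2 - V)) := by
  unfold gg ff
  split_ifs <;> omega

theorem gg_lt {V W1 W2 p : ℤ} (h2 : W1 < W2) (hp : p < W1) :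
    gg V W1 W2 p = p + (W2 - V) := by
  unfold gg ff
  split_ifs <;> omega

theorem gg_mono {V W1 W2 p q : ℤ} (h1 : V < W1) (h2 : W1 < W2)
    (hp : W1 < p) (hq : W1 < q) :
    gg V W1 W2 p < gg V W1 W2 q ↔ p < q := by
  unfold gg ff
  split_ifs <;> constructor <;> intro <;> omega

theorem gg_nc {V W1 W2 p q r s : ℤ} (h1 : V < W1) (h2 : W1 < W2)
    (hp : V < p) (hq : V < q) (hr : V < r)
    (p2 : W1 ≠ p) (q2 : W1 ≠ q) (r2 : W1 ≠ r) (s2 : W1 ≠ s)
    (hpq : p < W1 ↔ q < W1) (hrs : r < W1 ↔ s < W1) (hn : NCr p q r s) :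
    ¬ (gg V W1 W2 p < gg V W1 W2 r ∧ gg V W1 W2 r < gg V W1 W2 q ∧
      gg V W1 W2 q < gg V W1 W2 s) := by
  rintro ⟨c1, c2, c3⟩
  by_cases a : p < W1
  · have b := hpq.1 a
    rw [gg_lt h2 a] at c1
    rw [gg_lt h2 b] at c2 c3
    by_cases c : r < W1
    · have d := hrs.1 c
      rw [gg_lt h2 c] at c1 c2
      rw [gg_lt h2 d] at c3
      exact hn.1 ⟨by omega, by omega, by omega⟩
    · have := gg_gt h1 h2 (by omega : W1 < r)
      omega
  · have a' : W1 < p := by omega
    have b : W1 < q := by omega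
    by_cases c : r < W1
    · have d := hrs.1 c
      rw [gg_lt h2 c] at c1 c2
      rw [gg_lt h2 d] at c3
      have := gg_gt h1 h2 b
      omega
    · have c' : W1 < r := by omega
      have d : W1 < s := by omega
      rw [gg_mono h1 h2 a' c'] at c1
      rw [gg_mono h1 h2 c' b] at c2
      rw [gg_mono h1 h2 b d] at c3
      exact hn.1 ⟨c1, c2, c3⟩

theorem gg_cyc_lt {V W1 W2 p q r : ℤ} (h2 : W1 < W2)
    (hp : p < W1) (hq : q < W1) (hr : r < W1) :
    cyc (gg V W1 W2 p) (gg V W1 W2 q) (gg V W1 W2 r) ↔ cyc p q r := by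
  unfold gg ff cyc
  split_ifs <;> constructor <;> intro <;> omega

theorem gg_cyc_gt {V W1 W2 p q r : ℤ} (h1 : V < W1) (h2 : W1 < W2)
    (hp : W1 < p) (hq : W1 < q) (hr : W1 < r) :
    cyc (gg V W1 W2 p) (gg V W1 W2 q) (gg V W1 W2 r) ↔ cyc p q r := by
  unfold cyc
  rw [gg_mono h1 h2 hp hq, gg_mono h1 h2 hq hr, gg_mono h1 h2 hr hp]

theorem ff_inj {V W1 W2 p q : ℤ} (hp : V < p) (hq : V < q) (h : ff V W1 W2 p = ff V W1 W2 q) : p = q := by
  unfold ff at h
  split_ifs at h <;> omega

end intlemmas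

section deletion2

variable {pos : X → ℤ} {col : X → Bool} {S : Finset X}

/-- The points which remain. -/
def del (S : Finset X) (v w2 : X) : Finset X := (S.erase v).erase w2

theorem mem_del {v w2 x : X} : x ∈ del S v w2 ↔ x ≠ w2 ∧ x ≠ v ∧ x ∈ S := by
  simp [del]

theorem ph2_st {n : X → X} {v w1 w2 : X} (hinj : Set.InjOn pos S)
    (hv : ∀ x ∈ S, x ≠ v → pos v < pos x) (h12 : pos w1 < pos w2)
    (h : IsSt pos col S n) (hvS : v ∈ S) (hn : n v = w2) :
    IsSt (npos pos v w1 w2) col (del S v w2) n where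
  mem := by
    intro x hx
    rw [mem_del] at hx ⊢
    have := inside_iff hinj hv h hvS hn hx.2.2 hx.2.1 hx.1
    exact ⟨this.2.2.2.2, this.2.2.2.1, h.mem x hx.2.2⟩
  inv := h.inv
  col := fun x hx => h.col x (mem_del.1 hx).2.2
  nc := by
    intro x hx y hy
    rw [mem_del] at hx hy
    have hwS : w2 ∈ S := hn ▸ h.mem v hvS
    obtain ⟨a1, a2, a3, -, -⟩ := inside_iff hinj hv h hvS hn hx.2.2 hx.2.1 hx.1
    obtain ⟨b1, b2, b3, -, -⟩ := inside_iff hinj hv h hvS hn hy.2.2 hy.2.1 hy.1
    exact ff_nc h12 (hv x hx.2.2 hx.2.1) a2 (hv y hy.2.2 hy.2.1) b2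
      (fun g => hx.1 (hinj hwS hx.2.2 g).symm) a3 (fun g => hy.1 (hinj hwS hy.2.2 g).symm) b3
      a1 b1 (h.ncr hx.2.2 hy.2.2)

theorem npos_swap {v w1 w2 x : X} (hinj : Set.InjOn pos S) (hw2 : w2 ∈ S)
    (hx : x ∈ S) (x1 : x ≠ w1) :
    npos pos v w1 w2 (Equiv.swap w1 w2 x) = gg (pos v) (pos w1) (pos w2) (pos x) := by
  by_cases g : x = w2
  · subst g
    rw [Equiv.swap_apply_right]
    unfold npos gg ff
    rw [if_neg (by omega), if_pos rfl]
  · rw [Equiv.swap_apply_of_ne_of_ne x1 g]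
    unfold npos gg
    rw [if_neg (fun g' => g (hinj hx hw2 g'))]

theorem swap_mem_del {v w1 w2 x : X} (h12 : w1 ≠ w2) (hv2 : v ≠ w2) (hw2 : w2 ∈ S)
    (hx : x ∈ del S v w2) : Equiv.swap w1 w2 x ≠ w1 ∧ Equiv.swap w1 w2 x ≠ v ∧
      Equiv.swap w1 w2 x ∈ S := by
  rw [mem_del] at hx
  by_cases g : x = w1
  · subst g
    rw [Equiv.swap_apply_left]
    exact ⟨h12.symm, hv2.symm, hw2⟩
  · rw [Equiv.swap_apply_of_ne_of_ne g hx.1]
    exact ⟨g, hx.2.1, hx.2.2⟩

theorem swap_mem_del' {v w1 w2 x : X} (h12 : w1 ≠ w2) (hv1 : v ≠ w1) (hw1 : w1 ∈ S)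
    (hx : x ∈ S) (x1 : x ≠ w1) (x2 : x ≠ v) : Equiv.swap w1 w2 x ∈ del S v w2 := by
  rw [mem_del]
  by_cases g : x = w2
  · subst g
    rw [Equiv.swap_apply_right]
    exact ⟨h12, hv1.symm, hw1⟩
  · rw [Equiv.swap_apply_of_ne_of_ne x1 g]
    exact ⟨g, x2, hx⟩

theorem ph1_st {n : X → X} {v w1 w2 : X} (hinj : Set.InjOn pos S)
    (hv : ∀ x ∈ S, x ≠ v → pos v < pos x) (h12 : pos w1 < pos w2)
    (h : IsSt pos col S n) (hvS : v ∈ S) (hw2 : w2 ∈ S) (hv2 : v ≠ w2)
    (hc : col w1 = col w2) (hn : n v = w1) :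
    IsSt (npos pos v w1 w2) col (del S v w2) (cj w1 w2 n) := by
  have hw1 : w1 ∈ S := hn ▸ h.mem v hvS
  have hv1 : v ≠ w1 := by rw [← hn]; exact (h.ne hvS).symm
  have ne12 : w1 ≠ w2 := by rintro rfl; exact lt_irrefl _ h12
  have pv1 : pos v < pos w1 := hv w1 hw1 hv1.symm
  have hcs : ∀ x, col (Equiv.swap w1 w2 x) = col x := by
    intro x
    by_cases g1 : x = w1
    · subst g1; rw [Equiv.swap_apply_left, hc]
    · by_cases g2 : x = w2
      · subst g2; rw [Equiv.swap_apply_right, hc]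
      · rw [Equiv.swap_apply_of_ne_of_ne g1 g2]
  refine ⟨?_, ?_, ?_, ?_⟩
  · intro x hx
    obtain ⟨b1, b2, b3⟩ := swap_mem_del ne12 hv2 hw2 hx
    have := inside_iff hinj hv h hvS hn b3 b2 b1
    exact swap_mem_del' ne12 hv1 hw1 (h.mem _ b3) this.2.2.2.2 this.2.2.2.1
  · intro x; simp [cj, h.inv]
  · intro x hx
    obtain ⟨b1, b2, b3⟩ := swap_mem_del ne12 hv2 hw2 hx
    unfold cj
    rw [hcs, ← hcs x]
    exact h.col _ b3
  · intro x hx y hy
    obtain ⟨b1, b2, b3⟩ := swap_mem_del ne12 hv2 hw2 hx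
    obtain ⟨c1, c2, c3⟩ := swap_mem_del ne12 hv2 hw2 hy
    obtain ⟨d1, d2, d3, d4, d5⟩ := inside_iff hinj hv h hvS hn b3 b2 b1
    obtain ⟨e1, e2, e3, e4, e5⟩ := inside_iff hinj hv h hvS hn c3 c2 c1
    have f1 := npos_swap (v := v) hinj hw2 b3 b1
    have f2 := npos_swap (v := v) hinj hw2 c3 c1
    rw [Equiv.swap_apply_self] at f1 f2
    have f3 : npos pos v w1 w2 (cj w1 w2 n x) = _ := npos_swap (v := v) hinj hw2 (h.mem _ b3) d5
    have f4 : npos pos v w1 w2 (cj w1 w2 n y) = _ := npos_swap (v := v) hinj hw2 (h.mem _ c3) e5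
    rw [f1, f2, f3, f4]
    exact gg_nc pv1 h12 (hv _ b3 b2) d2 (hv _ c3 c2)
      (fun g => b1 (hinj hw1 b3 g).symm) d3 (fun g => c1 (hinj hw1 c3 g).symm) e3
      d1 e1 (h.ncr b3 c3)

theorem ph2_ok {n : X → X} {v w1 w2 : X} {e : Lab X} (hinj : Set.InjOn pos S)
    (hv : ∀ x ∈ S, x ≠ v → pos v < pos x) (h12 : pos w1 < pos w2)
    (h : IsSt pos col S n) (k : Ok pos col S n e) (hvS : v ∈ S) (hn : n v = w2)
    (hf : ¬ Touch e v) : Ok (npos pos v w1 w2) col (del S v w2) n e := by
  have hw : ¬ Touch e w2 := hn ▸ k.touch_m h hf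
  have hav : act e n v = w2 := by rw [act_other hf]; exact hn
  refine ⟨?_, ?_, k.hab, k.hcd, k.hac, k.hcol, ?_, (ph2_st hinj hv h12 (h.act k) hvS hav).nc⟩
  · rw [mem_del]
    exact ⟨fun g => hw (Or.inl g.symm), fun g => hf (Or.inl g.symm), k.ha⟩
  · rw [mem_del]
    exact ⟨fun g => hw (Or.inr (Or.inr (Or.inl g.symm))),
      fun g => hf (Or.inr (Or.inr (Or.inl g.symm))), k.hc⟩
  · rw [← k.sg]
    rcases side hinj hv h k hvS hn hf with hh | hh
    · have a := hh e.a (Or.inl rfl)
      have b := hh e.b (Or.inr (Or.inl rfl))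
      have d := hh e.d (Or.inr (Or.inr (Or.inr rfl)))
      exact ff_cyc_lt a.1 b.1 d.1 a.2 b.2 d.2
    · exact ff_cyc_gt (hh e.a (Or.inl rfl)) (hh e.b (Or.inr (Or.inl rfl)))
        (hh e.d (Or.inr (Or.inr (Or.inr rfl))))

theorem ph1_ok {n : X → X} {v w1 w2 : X} {e : Lab X} (hinj : Set.InjOn pos S)
    (hv : ∀ x ∈ S, x ≠ v → pos v < pos x) (h12 : pos w1 < pos w2)
    (h : IsSt pos col S n) (k : Ok pos col S n e) (hvS : v ∈ S) (hw2 : w2 ∈ S)
    (hv2 : v ≠ w2) (hc : col w1 = col w2) (hn : n v = w1)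
    (hf : ¬ Touch e v) :
    Ok (npos pos v w1 w2) col (del S v w2) (cj w1 w2 n) (rn w1 w2 e) := by
  have hw1 : w1 ∈ S := hn ▸ h.mem v hvS
  have hv1 : v ≠ w1 := by rw [← hn]; exact (h.ne hvS).symm
  have ne12 : w1 ≠ w2 := by rintro rfl; exact lt_irrefl _ h12
  have pv1 : pos v < pos w1 := hv w1 hw1 hv1.symm
  have hcs : ∀ x, col (Equiv.swap w1 w2 x) = col x := by
    intro x
    by_cases g1 : x = w1
    · subst g1; rw [Equiv.swap_apply_left, hc]
    · by_cases g2 : x = w2
      · subst g2; rw [Equiv.swap_apply_right, hc]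
      · rw [Equiv.swap_apply_of_ne_of_ne g1 g2]
  have hw : ¬ Touch e w1 := hn ▸ k.touch_m h hf
  have hav : act e n v = w1 := by rw [act_other hf]; exact hn
  have hst := ph1_st hinj hv h12 (h.act k) hvS hw2 hv2 hc hav
  have ta : Touch e e.a := Or.inl rfl
  have tb : Touch e e.b := Or.inr (Or.inl rfl)
  have tc : Touch e e.c := Or.inr (Or.inr (Or.inl rfl))
  have td : Touch e e.d := Or.inr (Or.inr (Or.inr rfl))
  refine ⟨?_, ?_, ?_, ?_, ?_, ?_, ?_, ?_⟩
  · exact swap_mem_del' ne12 hv1 hw1 k.ha (fun g => hw (g ▸ ta)) (fun g => hf (g ▸ ta))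
  · exact swap_mem_del' ne12 hv1 hw1 k.hc (fun g => hw (g ▸ tc)) (fun g => hf (g ▸ tc))
  · simp [cj, rn, k.hab]
  · simp [cj, rn, k.hcd]
  · intro g
    exact k.hac ((Equiv.swap w1 w2).injective g)
  · simp only [rn]; rw [hcs, hcs]; exact k.hcol
  · simp only [rn]
    rw [npos_swap (v := v) (w1 := w1) hinj hw2 k.ha (fun g => hw (g ▸ ta)),
      npos_swap (v := v) (w1 := w1) hinj hw2 (k.hb h) (fun g => hw (g ▸ tb)),
      npos_swap (v := v) (w1 := w1) hinj hw2 (k.hd h) (fun g => hw (g ▸ td)), hcs, ← k.sg]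
    rcases side hinj hv h k hvS hn hf with hh | hh
    · exact gg_cyc_lt h12 (hh e.a ta).2 (hh e.b tb).2 (hh e.d td).2
    · exact gg_cyc_gt pv1 h12 (hh e.a ta) (hh e.b tb) (hh e.d td)
  · rw [act_rn]; exact hst.nc

theorem ph2_good {v w1 w2 : X} (hinj : Set.InjOn pos S)
    (hv : ∀ x ∈ S, x ≠ v → pos v < pos x) (h12 : pos w1 < pos w2) (hvS : v ∈ S)
    (L : List (Lab X)) : ∀ n : X → X, IsSt pos col S n → n v = w2 → Free v L →
    Good pos col S n L → Good (npos pos v w1 w2) col (del S v w2) n L := by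
  induction L with
  | nil => intro n _ _ _ _; trivial
  | cons e L ih =>
    intro n h hn hf hg
    have hfe : ¬ Touch e v := hf e (by simp)
    refine ⟨ph2_ok hinj hv h12 h hg.1 hvS hn hfe, ih _ (h.act hg.1) ?_ ?_ hg.2⟩
    · rw [act_other hfe]; exact hn
    · exact fun f hf' => hf f (by simp [hf'])

theorem ph1_good {v w1 w2 : X} (hinj : Set.InjOn pos S)
    (hv : ∀ x ∈ S, x ≠ v → pos v < pos x) (h12 : pos w1 < pos w2) (hvS : v ∈ S)
    (hw2 : w2 ∈ S) (hv2 : v ≠ w2) (hc : col w1 = col w2)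
    (L : List (Lab X)) : ∀ n : X → X, IsSt pos col S n → n v = w1 → Free v L →
    Good pos col S n L →
    Good (npos pos v w1 w2) col (del S v w2) (cj w1 w2 n) (L.map (rn w1 w2)) := by
  induction L with
  | nil => intro n _ _ _ _; trivial
  | cons e L ih =>
    intro n h hn hf hg
    have hfe : ¬ Touch e v := hf e (by simp)
    refine ⟨ph1_ok hinj hv h12 h hg.1 hvS hw2 hv2 hc hn hfe, ?_⟩
    rw [act_rn]
    refine ih _ (h.act hg.1) ?_ ?_ hg.2
    · rw [act_other hfe]; exact hn
    · exact fun f hf' => hf f (by simp [hf'])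

end deletion2

section delete

theorem bool3 : ∀ {c s s' t : Bool}, c = s → ¬ c = s' → ¬ s = t → s' = t := by decide

theorem bool4 : ∀ {x y z : Bool}, x ≠ z → y ≠ z → x = y := by decide

variable {pos : X → ℤ} {col : X → Bool} {S : Finset X} {m : X → X}

theorem delete
    (IH : ∀ (pos' : X → ℤ) (S' : Finset X) (m' : X → X) (L' : List (Lab X)),
      S'.card < S.card → Mov pos' col S' m' L' → Conc col S' L')
    {v w1 u1 w2 u2 b d : X} {s s' : Bool} {L2 L1 : List (Lab X)}
    (hv : ∀ x ∈ S, x ≠ v → pos v < pos x)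
    (hM : Mov pos col S m (⟨v, w1, u1, w2, s⟩ :: (L2 ++ ⟨v, b, u2, d, s'⟩ :: L1)))
    (f2 : Free v L2) (f1 : Free v L1) (h12 : pos w1 < pos w2) :
    Conc col S (⟨v, w1, u1, w2, s⟩ :: (L2 ++ ⟨v, b, u2, d, s'⟩ :: L1)) := by
  obtain ⟨hinj, h, hg, hcl, hlen, htr⟩ := hM
  obtain ⟨k1, hg⟩ := hg
  rw [good_append] at hg
  obtain ⟨hg2, k2, hg1⟩ := hg
  have hvS : v ∈ S := k1.ha
  have h1 := h.act k1
  set m1 := act (⟨v, w1, u1, w2, s⟩ : Lab X) m with hm1
  have m1v : m1 v = w2 := act_a
  have h2 := h1.run L2 hg2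
  set m2 := run m1 L2 with hm2
  have m2v : m2 v = w2 := by rw [hm2, run_free L2 m1 f2, m1v]
  obtain rfl : b = w2 := by rw [← m2v]; exact k2.hab.symm
  have h3 := h2.act k2
  set m3 := act (⟨v, b, u2, d, s'⟩ : Lab X) m2 with hm3
  have m3v : m3 v = d := act_a
  have hcl' : run m3 L1 = m := by
    rw [← hcl]
    show run m3 L1 = run m1 (L2 ++ _)
    rw [run_append]; rfl
  have mv : m v = w1 := k1.hab
  obtain rfl : d = w1 := by rw [← mv, ← hcl', run_free L1 m3 f1, m3v]
  -- now `b` is the partner `w2` and `d` is `w1`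
  have hw1 : d ∈ S := k1.hb h
  have hw2 : b ∈ S := k1.hd h
  have hu1 : u1 ∈ S := k1.hc
  have hu2 : u2 ∈ S := k2.hc
  have hv1 : v ≠ d := k1.ab h
  have hv2 : v ≠ b := k1.ad h
  have h1b : d ≠ b := k1.bd h
  have c1 : col d ≠ col v := k1.colb h
  have c2 : col b ≠ col v := by have := k1.cold h; rw [← k1.hcol] at this; exact this
  have hc : col d = col b := bool4 c1 c2
  have e1 : m1 = cj d b m := act_eq_cj h k1
  have e3 : m2 = cj d b m3 := by
    have : m3 = cj b d m2 := act_eq_cj h2 k2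
    rw [this]
    have sw : cj d b = cj b d := by funext n x; simp [cj, Equiv.swap_comm]
    rw [sw, cj_cj]
  have ncard : (del S v b).card + 2 = S.card := by
    unfold del
    have q1 : (S.erase v).card + 1 = S.card := Finset.card_erase_add_one hvS
    have q2 : ((S.erase v).erase b).card + 1 = (S.erase v).card :=
      Finset.card_erase_add_one (by simp [hw2, hv2.symm])
    omega
  have M' : Mov (npos pos v d b) col (del S v b) m1 (L2 ++ L1.map (rn d b)) := by
    refine ⟨?_, ph2_st hinj hv h12 h1 hvS m1v, ?_, ?_, ?_, ?_⟩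
    · intro x hx y hy hxy
      have hx' := mem_del.1 (Finset.mem_coe.1 hx)
      have hy' := mem_del.1 (Finset.mem_coe.1 hy)
      exact hinj hx'.2.2 hy'.2.2
        (ff_inj (hv x hx'.2.2 hx'.2.1) (hv y hy'.2.2 hy'.2.1) hxy)
    · rw [good_append]
      refine ⟨ph2_good hinj hv h12 hvS L2 m1 h1 m1v f2 hg2, ?_⟩
      rw [← hm2, e3]
      exact ph1_good hinj hv h12 hvS hw2 hv2 hc L1 m3 h3 m3v f1 hg1
    · rw [run_append, ← hm2, e3, run_rn, hcl', e1]
    · simp only [List.length_append, List.length_map, List.length_cons] at hlen ⊢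
      omega
    · intro p hp hpe x hx y hy
      -- extend `p` to `S`
      set r : X → X := fun x => if x = v ∨ x = b then d else x with hr
      have rv : r v = d := by simp [hr]
      have rb : r b = d := by simp [hr]
      have ro : ∀ z, z ≠ v → z ≠ b → r z = z := by
        intro z z1 z2; simp [hr, z1, z2]
      have hdel : ∀ z ∈ S, z ≠ v → z ≠ b → z ∈ del S v b := by
        intro z z0 z1 z2; rw [mem_del]; exact ⟨z2, z1, z0⟩
      have u1b : u1 ≠ b := k1.cd h
      have u1v : u1 ≠ v := k1.hac.symm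
      have m1u1 : m1 u1 = d := k1.act_c h
      have p1 : p u1 ↔ p d := by
        have := hp u1 (hdel u1 hu1 u1v u1b)
        rwa [m1u1] at this
      have hp2 : ∀ z ∈ del S v b, (p z ↔ p (m2 z)) :=
        inv_run (pos := npos pos v d b) (col := col) L2
          (ph2_st hinj hv h12 h1 hvS m1v) (ph2_good hinj hv h12 hvS L2 m1 h1 m1v f2 hg2)
          hp (fun e he => hpe e (by simp [he]))
      have u2b : u2 ≠ b := (k2.bc h2).symm
      have u2v : u2 ≠ v := k2.hac.symm
      have m2u2 : m2 u2 = d := k2.hcd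
      have p2 : p u2 ↔ p d := by
        have := hp2 u2 (hdel u2 hu2 u2v u2b)
        rwa [m2u2] at this
      have mu1 : m u1 = b := k1.hcd
      have mb : m b = u1 := by rw [← mu1, h.inv]
      have md : m d = v := by rw [← mv, h.inv]
      have hq : ∀ z ∈ S, (p (r z) ↔ p (r (m z))) := by
        intro z hz
        by_cases z1 : z = v
        · subst z1; rw [rv, mv, ro d hv1.symm h1b]
        by_cases z2 : z = d
        · subst z2; rw [md, rv, ro _ hv1.symm h1b]
        by_cases z3 : z = b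
        · subst z3; rw [rb, mb, ro u1 u1v u1b]; exact p1.symm
        by_cases z4 : z = u1
        · subst z4; rw [mu1, rb, ro z u1v u1b]; exact p1
        have mz1 : m z ≠ v := fun g => z2 (by rw [← h.inv z, g, mv])
        have mz2 : m z ≠ b := fun g => z4 (by rw [← h.inv z, g, mb])
        rw [ro z z1 z3, ro _ mz1 mz2]
        have := hp z (hdel z hz z1 z3)
        rwa [hm1, act_other] at this
        unfold Touch
        simp only
        push Not
        exact ⟨z1, z2, z4, z3⟩
      have hqe : ∀ e ∈ (⟨v, d, u1, b, s⟩ : Lab X) :: (L2 ++ ⟨v, b, u2, d, s'⟩ :: L1),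
          Cnd (fun z => p (r z)) e := by
        intro e he
        rcases List.mem_cons.1 he with rfl | he
        · refine ⟨?_, ?_⟩
          · simp only; rw [rv, ro u1 u1v u1b]; exact p1.symm
          · simp only; rw [rb, ro d hv1.symm h1b]
        rcases List.mem_append.1 he with he | he
        · have fv := f2 e he
          -- points of `e` avoid `v` and `b`
          have fb : ¬ Touch e b := by
            obtain ⟨M1, M2, rfl⟩ := List.append_of_mem he
            rw [good_append] at hg2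
            have q0 := h1.run M1 hg2.1
            have q1 : run m1 M1 v = b := by
              rw [run_free M1 m1 (fun f hf => f2 f (by simp [hf])), m1v]
            rw [← q1]
            exact hg2.2.1.touch_m q0 fv
          have hce := hpe e (by simp [he])
          unfold Touch at fv fb
          push Not at fv fb
          refine ⟨?_, ?_⟩
          · simp only
            rw [ro e.a fv.1.symm fb.1.symm, ro e.c fv.2.2.1.symm fb.2.2.1.symm]
            exact hce.1
          · simp only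
            rw [ro e.b fv.2.1.symm fb.2.1.symm, ro e.d fv.2.2.2.symm fb.2.2.2.symm]
            exact hce.2
        rcases List.mem_cons.1 he with rfl | he
        · refine ⟨?_, ?_⟩
          · simp only; rw [rv, ro u2 u2v u2b]; exact p2.symm
          · simp only; rw [rb, ro d hv1.symm h1b]
        · have fv := f1 e he
          have fd : ¬ Touch e d := by
            obtain ⟨M1, M2, rfl⟩ := List.append_of_mem he
            rw [good_append] at hg1
            have q0 := h3.run M1 hg1.1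
            have q1 : run m3 M1 v = d := by
              rw [run_free M1 m3 (fun f hf => f1 f (by simp [hf])), m3v]
            rw [← q1]
            exact hg1.2.1.touch_m q0 fv
          have hce := hpe (rn d b e) (by
            rw [List.mem_append]; right; exact List.mem_map_of_mem he)
          have rs : ∀ z, z ≠ v → z ≠ d → r z = Equiv.swap d b z := by
            intro z z1 z2
            by_cases z3 : z = b
            · subst z3; rw [rb, Equiv.swap_apply_right]
            · rw [ro z z1 z3, Equiv.swap_apply_of_ne_of_ne z2 z3]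
          unfold Touch at fv fd
          push Not at fv fd
          refine ⟨?_, ?_⟩
          · simp only
            rw [rs e.a fv.1.symm fd.1.symm, rs e.c fv.2.2.1.symm fd.2.2.1.symm]
            exact hce.1
          · simp only
            rw [rs e.b fv.2.1.symm fd.2.1.symm, rs e.d fv.2.2.2.symm fd.2.2.2.symm]
            exact hce.2
      have hx' := mem_del.1 hx
      have hy' := mem_del.1 hy
      have := htr (fun z => p (r z)) hq hqe x hx'.2.2 y hy'.2.2
      rwa [ro x hx'.2.1 hx'.1, ro y hy'.2.1 hy'.1] at this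
  have C' := IH _ _ _ _ (by omega) M'
  -- the conclusion
  have s1 : col v = s := by
    have := k1.sg
    simp only at this
    exact this.1 (Or.inl ⟨hv d hw1 hv1.symm, h12⟩)
  have s2 : ¬ (col v = s') := by
    have := k2.sg
    simp only at this
    rw [← this]
    have := hv d hw1 hv1.symm
    unfold cyc
    omega
  intro t p hp
  have pbd : p d ↔ p b := by
    by_cases ht : s = t
    · exact (hp (⟨v, d, u1, b, s⟩ : Lab X) (by simp) ht).2
    · have ht' : s' = t := bool3 s1 s2 ht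
      have := (hp (⟨v, b, u2, d, s'⟩ : Lab X) (by simp) ht').2
      exact this.symm
  have pv : ∃ u ∈ del S v b, col u = col v ∧ (p v ↔ p u) := by
    by_cases ht : s = t
    · refine ⟨u1, ?_, k1.hcol.symm, (hp (⟨v, d, u1, b, s⟩ : Lab X) (by simp) ht).1⟩
      rw [mem_del]; exact ⟨k1.cd h, k1.hac.symm, hu1⟩
    · have ht' : s' = t := bool3 s1 s2 ht
      refine ⟨u2, ?_, k2.hcol.symm, (hp (⟨v, b, u2, d, s'⟩ : Lab X) (by simp) ht').1⟩
      rw [mem_del]; exact ⟨(k2.bc h2).symm, k2.hac.symm, hu2⟩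
  have psw : ∀ z, (p (Equiv.swap d b z) ↔ p z) := by
    intro z
    by_cases z1 : z = d
    · subst z1; rw [Equiv.swap_apply_left]; exact pbd.symm
    by_cases z2 : z = b
    · subst z2; rw [Equiv.swap_apply_right]; exact pbd
    rw [Equiv.swap_apply_of_ne_of_ne z1 z2]
  have C := C' t p (by
    intro e he hes
    rcases List.mem_append.1 he with he | he
    · exact hp e (by simp [he]) hes
    · obtain ⟨f, hf, rfl⟩ := List.mem_map.1 he
      have := hp f (by simp [hf]) hes
      refine ⟨?_, ?_⟩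
      · simp only [rn]; rw [psw, psw]; exact this.1
      · simp only [rn]; rw [psw, psw]; exact this.2)
  have rep : ∀ x ∈ S, ∃ u ∈ del S v b, col u = col x ∧ (p x ↔ p u) := by
    intro x hx
    by_cases x1 : x = v
    · subst x1; exact pv
    by_cases x2 : x = b
    · subst x2
      exact ⟨d, by rw [mem_del]; exact ⟨h1b, hv1.symm, hw1⟩, hc, pbd.symm⟩
    · exact ⟨x, by rw [mem_del]; exact ⟨x2, x1, hx⟩, rfl, Iff.rfl⟩
  intro x hx y hy hxy
  obtain ⟨u, hu, hu1', hu2'⟩ := rep x hx
  obtain ⟨u', hu', hu1'', hu2''⟩ := rep y hy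
  rw [hu2', hu2'']
  exact C u hu u' hu' (by rw [hu1', hu1'', hxy])

end delete

section val3

variable {pos : X → ℤ} {col : X → Bool} {S : Finset X} {m : X → X}

theorem ord1 {n : X → X} {v w1 u1 w2 : X} {s : Bool} (hinj : Set.InjOn pos S)
    (hv : ∀ x ∈ S, x ≠ v → pos v < pos x) (h : IsSt pos col S n)
    (k1 : Ok pos col S n ⟨v, w1, u1, w2, s⟩) (h12 : pos w1 < pos w2) :
    pos v < pos w1 ∧ pos w1 < pos u1 ∧ pos u1 < pos w2 := by
  have hvS : v ∈ S := k1.ha
  have hu1 : u1 ∈ S := k1.hc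
  have hw1 : w1 ∈ S := k1.hb h
  have hw2 : w2 ∈ S := k1.hd h
  have h1 := h.act k1
  have nv : n v = w1 := k1.hab
  have nu1 : n u1 = w2 := k1.hcd
  have vw1 : v ≠ w1 := k1.ab h
  have vu1 : v ≠ u1 := k1.hac
  have w1u1 : w1 ≠ u1 := k1.bc h
  have u1w2 : u1 ≠ w2 := k1.cd h
  have pv1 := hv w1 hw1 vw1.symm
  have pv2 := hv u1 hu1 vu1.symm
  have n1u1 : act (⟨v, w1, u1, w2, s⟩ : Lab X) n u1 = w1 := k1.act_c h
  have n1v : act (⟨v, w1, u1, w2, s⟩ : Lab X) n v = w2 := act_a
  refine ⟨pv1, ?_, ?_⟩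
  · have t := h.ncr hvS hu1
    rw [nv, nu1] at t
    have p1 : pos w1 ≠ pos u1 := fun g => w1u1 (hinj hw1 hu1 g)
    have := t.1
    omega
  · have t := h1.ncr hvS hu1
    rw [n1v, n1u1] at t
    have p1 : pos u1 ≠ pos w2 := fun g => u1w2 (hinj hu1 hw2 g)
    have := t.2.2.2.2.1
    omega

theorem cnd_slide {p : X → Prop} {v w1 u1 w2 u2 w3 : X} {s : Bool} :
    (Cnd p ⟨v, w1, u1, w2, s⟩ ∧ Cnd p ⟨v, w2, u2, w3, s⟩) ↔
      (Cnd p ⟨v, w1, u1, w3, s⟩ ∧ Cnd p ⟨u1, w2, u2, w3, s⟩) := by
  unfold Cnd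
  simp only
  tauto

theorem val3
    (IH : ∀ (pos' : X → ℤ) (S' : Finset X) (m' : X → X) (L' : List (Lab X)),
      S'.card < S.card → Mov pos' col S' m' L' → Conc col S' L')
    {v w1 u1 w2 b2 u2 w3 b3 u3 d3 : X} {s s2 s3 : Bool} {L M N : List (Lab X)}
    (hv : ∀ x ∈ S, x ≠ v → pos v < pos x)
    (hM : Mov pos col S m (⟨v, w1, u1, w2, s⟩ :: (L ++ ⟨v, b2, u2, w3, s2⟩ ::
      (M ++ ⟨v, b3, u3, d3, s3⟩ :: N))))
    (fL : Free v L) (fM : Free v M) (fN : Free v N)
    (h12 : pos w1 < pos w2) (h23 : pos w2 < pos w3) :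
    Conc col S (⟨v, w1, u1, w2, s⟩ :: (L ++ ⟨v, b2, u2, w3, s2⟩ ::
      (M ++ ⟨v, b3, u3, d3, s3⟩ :: N))) := by
  obtain ⟨hinj, h, hg, hcl, hlen, htr⟩ := hM
  have hg0 := hg
  obtain ⟨k1, hg⟩ := hg
  have hvS : v ∈ S := k1.ha
  have h1 := h.act k1
  set m1 := act (⟨v, w1, u1, w2, s⟩ : Lab X) m with hm1
  have m1v : m1 v = w2 := act_a
  have hgL := ((good_append _ _ _).1 hg).1
  have hg2 := ((good_append _ _ _).1 hg).2
  have k2 := hg2.1
  have hst2 := h1.run L hgL
  have rv : run m1 L v = w2 := by rw [run_free L m1 fL, m1v]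
  obtain rfl : b2 = w2 := by rw [← rv]; exact k2.hab.symm
  obtain ⟨o1, o2, o3⟩ := ord1 hinj hv h k1 h12
  obtain ⟨-, o4, o5⟩ := ord1 hinj hv hst2 k2 h23
  obtain rfl : s2 = s := by
    have q1 := k1.sg
    have q2 := k2.sg
    simp only at q1 q2
    rw [← q1.1 (Or.inl ⟨o1, h12⟩), ← q2.1 (Or.inl ⟨by omega, h23⟩)]
  obtain ⟨Lo, Li, hLo, hLi, hgs, hrs, hperm⟩ := sort_out hinj hv hvS L m1 h1 m1v fL hgL
  set R := M ++ (⟨v, b3, u3, d3, s3⟩ : Lab X) :: N with hR
  have hw2 : b2 ∈ S := k1.hd h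
  -- step (i)
  have hgA : Good pos col S m (⟨v, w1, u1, b2, s2⟩ :: (Lo ++ (Li ++ ⟨v, b2, u2, w3, s2⟩ :: R))) := by
    refine ⟨k1, ?_⟩
    rw [← List.append_assoc, good_append]
    refine ⟨hgs, ?_⟩
    rw [hrs]; exact hg2
  have hmI : ∀ x ∈ S, (pos x ≤ pos b2 ↔ pos (m x) ≤ pos b2) := by
    intro x hx
    by_cases ht : Touch (⟨v, w1, u1, b2, s2⟩ : Lab X) x
    · rcases ht with rfl | rfl | rfl | rfl
      · have : m x = w1 := k1.hab
        rw [this]; constructor <;> intro <;> omega
      · have := k1.mb h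
        simp only at this ⊢; rw [this]; constructor <;> intro <;> omega
      · have := k1.hcd
        simp only at this ⊢; rw [this]; constructor <;> intro <;> omega
      · have := k1.md h
        simp only at this ⊢; rw [this]; constructor <;> intro <;> omega
    · have e1 : m1 x = m x := act_other ht
      have x1 : x ≠ v := fun g => ht (Or.inl g)
      have x2 : x ≠ b2 := fun g => ht (Or.inr (Or.inr (Or.inr g)))
      obtain ⟨a1, a2, a3, -, -⟩ := inside_iff hinj hv h1 hvS m1v hx x1 x2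
      rw [e1] at a1 a3
      have a4 : pos b2 ≠ pos x := fun g => x2 (hinj hw2 hx g).symm
      constructor <;> intro <;> omega
  have hA := push_right (I := fun x => pos x ≤ pos b2) (ci_le _)
    (e := (⟨v, w1, u1, b2, s2⟩ : Lab X))
    (by rintro x (rfl | rfl | rfl | rfl) <;> omega)
    (Li ++ ⟨v, b2, u2, w3, s2⟩ :: R) Lo m h hmI
    (fun f hf x hx => by have := hLo f hf x hx; omega) hgA
  obtain ⟨hA1, hA2⟩ := hA
  rw [good_append] at hA1
  obtain ⟨hgLo, hkn, hgn⟩ := hA1
  have hn := h.run Lo hgLo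
  set n := run m Lo with hndef
  have hn1 := hn.act hkn
  set n1 := act (⟨v, w1, u1, b2, s2⟩ : Lab X) n with hn1def
  have n1v : n1 v = b2 := act_a
  -- step (ii)
  have hnI : ∀ x ∈ S, ((pos v < pos x ∧ pos x < pos b2) ↔
      (pos v < pos (n1 x) ∧ pos (n1 x) < pos b2)) := by
    intro x hx
    by_cases x1 : x = v
    · subst x1; rw [n1v]; constructor <;> intro <;> omega
    by_cases x2 : x = b2
    · subst x2
      have : n1 x = v := by rw [← n1v, hn1.inv]
      rw [this]; constructor <;> intro <;> omega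
    obtain ⟨a1, a2, a3, -, -⟩ := inside_iff hinj hv hn1 hvS n1v hx x1 x2
    have := hv x hx x1
    constructor <;> intro <;> omega
  obtain ⟨hB1, hB2⟩ := push_left (I := fun x => pos v < pos x ∧ pos x < pos b2) (ci_lt _ _)
    (e := (⟨v, b2, u2, w3, s2⟩ : Lab X))
    (by rintro x (rfl | rfl | rfl | rfl) <;> omega)
    R Li n1 hn1 hnI hLi hgn
  obtain ⟨hk2n, hgR⟩ := hB1
  -- step (iii)
  obtain ⟨hc1, hc2, hc3⟩ := slide hinj hv hn hkn hk2n h12 h23
  set n' := act (⟨u1, b2, u2, w3, s2⟩ : Lab X) n with hn'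
  have hstn' := hn.act hc1
  have hgood' : Good pos col S n' (⟨v, w1, u1, w3, s2⟩ :: (Li ++ R)) := by
    refine ⟨hc2, ?_⟩
    rw [hc3]; exact hgR
  have hrun' : run n' (⟨v, w1, u1, w3, s2⟩ :: (Li ++ R)) = m := by
    have q1 : run n' (⟨v, w1, u1, w3, s2⟩ :: (Li ++ R)) =
        run n1 (⟨v, b2, u2, w3, s2⟩ :: (Li ++ R)) := by
      show run (act (⟨v, w1, u1, w3, s2⟩ : Lab X) n') (Li ++ R) = _
      rw [hc3]; rfl
    rw [q1, hB2]
    have q2 : run m (Lo ++ ⟨v, w1, u1, b2, s2⟩ :: (Li ++ ⟨v, b2, u2, w3, s2⟩ :: R)) =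
        run n1 (Li ++ ⟨v, b2, u2, w3, s2⟩ :: R) := by
      rw [run_append]; rfl
    rw [← q2, hA2]
    have q3 : run m (⟨v, w1, u1, b2, s2⟩ :: (Lo ++ (Li ++ ⟨v, b2, u2, w3, s2⟩ :: R))) =
        run m (⟨v, w1, u1, b2, s2⟩ :: (L ++ ⟨v, b2, u2, w3, s2⟩ :: R)) := by
      show run m1 _ = run m1 _
      rw [← List.append_assoc, run_append, hrs, run_append]
    rw [q3]; exact hcl
  -- step (iv)
  have hequiv : ∀ (t : Bool) (p : X → Prop),
      ((∀ e ∈ (⟨v, w1, u1, b2, s2⟩ : Lab X) :: (L ++ ⟨v, b2, u2, w3, s2⟩ ::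
        (M ++ ⟨v, b3, u3, d3, s3⟩ :: N)), e.s = t → Cnd p e) ↔
      (∀ e ∈ (⟨v, w1, u1, w3, s2⟩ : Lab X) :: ((Li ++ M) ++ ⟨v, b3, u3, d3, s3⟩ ::
        (N ++ (Lo ++ [⟨u1, b2, u2, w3, s2⟩]))), e.s = t → Cnd p e)) := by
    intro t p
    have hmem : ∀ e, e ∈ L ↔ e ∈ Lo ∨ e ∈ Li := by
      intro e
      rw [← hperm.mem_iff, List.mem_append]
    constructor
    · intro hp e he hes
      simp only [List.mem_cons, List.mem_append, List.not_mem_nil, or_false] at he
      have sl : s2 = t → Cnd p ⟨v, w1, u1, w3, s2⟩ ∧ Cnd p ⟨u1, b2, u2, w3, s2⟩ := by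
        intro g
        exact cnd_slide.1 ⟨hp _ (by simp) g, hp (⟨v, b2, u2, w3, s2⟩ : Lab X) (by simp) g⟩
      rcases he with rfl | (he | he) | rfl | he | he | rfl
      · exact (sl hes).1
      · exact hp e (by simp [(hmem e).2 (Or.inr he)]) hes
      · exact hp e (by simp [he]) hes
      · exact hp _ (by simp) hes
      · exact hp e (by simp [he]) hes
      · exact hp e (by simp [(hmem e).2 (Or.inl he)]) hes
      · exact (sl hes).2
    · intro hp e he hes
      simp only [List.mem_cons, List.mem_append] at he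
      have sl : s2 = t → Cnd p ⟨v, w1, u1, b2, s2⟩ ∧ Cnd p ⟨v, b2, u2, w3, s2⟩ := by
        intro g
        exact cnd_slide.2 ⟨hp _ (by simp) g, hp (⟨u1, b2, u2, w3, s2⟩ : Lab X) (by simp) g⟩
      rcases he with rfl | he | rfl | he | rfl | he
      · exact (sl hes).1
      · rcases (hmem e).1 he with he | he
        · exact hp e (by simp [he]) hes
        · exact hp e (by simp [he]) hes
      · exact (sl hes).2
      · exact hp e (by simp [he]) hes
      · exact hp _ (by simp) hes
      · exact hp e (by simp [he]) hes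
  have hsplit := (good_append (⟨v, w1, u1, w3, s2⟩ :: (Li ++ M))
    ((⟨v, b3, u3, d3, s3⟩ : Lab X) :: N) n').1 (by
      simpa [hR, List.append_assoc] using hgood')
  have M' : Mov pos col S n' (⟨v, w1, u1, w3, s2⟩ :: ((Li ++ M) ++ ⟨v, b3, u3, d3, s3⟩ ::
      (N ++ (Lo ++ [⟨u1, b2, u2, w3, s2⟩])))) := by
    have eqlist : (⟨v, w1, u1, w3, s2⟩ : Lab X) :: ((Li ++ M) ++ ⟨v, b3, u3, d3, s3⟩ ::
      (N ++ (Lo ++ [⟨u1, b2, u2, w3, s2⟩]))) =
      (⟨v, w1, u1, w3, s2⟩ :: (Li ++ R)) ++ (Lo ++ [⟨u1, b2, u2, w3, s2⟩]) := by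
      simp [hR, List.append_assoc]
    refine ⟨hinj, hstn', ?_, ?_, ?_, ?_⟩
    · rw [eqlist, good_append]
      refine ⟨hgood', ?_⟩
      rw [hrun', good_append]
      exact ⟨hgLo, hc1, trivial⟩
    · rw [eqlist, run_append, hrun', run_append]; rfl
    · have := hperm.length_eq
      simp only [List.length_append, List.length_cons, List.length_nil, hR] at this hlen ⊢
      omega
    · intro p hp hpe
      have hpm : ∀ x ∈ S, (p x ↔ p (m x)) := by
        rw [← hrun']
        refine inv_run _ hstn' hgood' hp (fun e he => hpe e ?_)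
        rw [eqlist, List.mem_append]; exact Or.inl he
      refine htr p hpm ?_
      intro e he
      exact (hequiv e.s p).2 (fun f hf _ => hpe f hf) e he rfl
  have fLo : Free v Lo := fun e he => fL e (hperm.mem_iff.1 (by simp [he]))
  have fLi : Free v Li := fun e he => fL e (hperm.mem_iff.1 (by simp [he]))
  have C := delete IH hv M'
    (by
      intro e he
      rcases List.mem_append.1 he with he | he
      · exact fLi e he
      · exact fM e he)
    (by
      intro e he
      simp only [List.mem_append, List.mem_singleton] at he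
      rcases he with he | he | rfl
      · exact fN e he
      · exact fLo e he
      · unfold Touch
        simp only
        push Not
        have w2S := hw2
        refine ⟨?_, ?_, ?_, ?_⟩ <;> rintro rfl <;> omega)
    (by omega)
  intro t p hp
  exact C t p ((hequiv t p).1 hp)

end val3

section cyclic

theorem NCr.not_cross {p q r s : ℤ} (h : NCr p q r s) (h1 : cyc p r q) (h2 : cyc q s p) :
    False := by
  have g1 := h.1
  have g4 := h.2.2.2.1
  have g6 := h.2.2.2.2.2.1
  have g7 := h.2.2.2.2.2.2.1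
  clear h
  unfold cyc at h1 h2
  rcases h1 with h1 | h1 | h1
  · rcases h2 with h2 | h2 | h2
    · omega
    · exact g6 ⟨h2.1, h1.1, h1.2⟩
    · exact g1 ⟨h1.1, h1.2, h2.2⟩
  · rcases h2 with h2 | h2 | h2
    · exact g4 ⟨h1.1, h2.1, h2.2⟩
    · omega
    · omega
  · rcases h2 with h2 | h2 | h2
    · exact g7 ⟨h2.1, h2.2, h1.2⟩
    · omega
    · omega

theorem cyc_rot {x y z : ℤ} : cyc x y z ↔ cyc y z x := by
  unfold cyc; tauto

theorem cyc_not {x y z : ℤ} (h1 : x ≠ y) (h2 : y ≠ z) (h3 : x ≠ z) :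
    ¬ cyc x y z ↔ cyc z y x := by
  unfold cyc; constructor <;> intro <;> omega

theorem cyc_trans {x y z t : ℤ} (h1 : cyc x y z) (h2 : cyc x z t) : cyc y z t := by
  unfold cyc at *; omega

theorem cyc_asymm {x y z : ℤ} (h1 : cyc x y z) : ¬ cyc y x z := by
  unfold cyc at *; omega

/-- Noncrossing in cyclic form. -/
theorem NCr.cyc_iff {p q r s : ℤ} (h : NCr p q r s) (pr : p ≠ r) (ps : p ≠ s) (qr : q ≠ r)
    (qs : q ≠ s) (pq : p ≠ q) : cyc p r q ↔ cyc p s q := by
  constructor
  · intro h1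
    by_contra h2
    rw [cyc_not ps qs.symm pq] at h2
    exact h.not_cross h1 h2
  · intro h1
    by_contra h2
    rw [cyc_not pr qr.symm pq] at h2
    have h' : NCr p q s r := by
      obtain ⟨g1, g2, g3, g4, g5, g6, g7, g8⟩ := h
      exact ⟨g5, g6, g7, g8, g1, g2, g3, g4⟩
    exact h'.not_cross h1 h2

theorem alt4 {a b c d : ℤ} (ab : a ≠ b) (ac : a ≠ c) (ad : a ≠ d) (bc : b ≠ c) (bd : b ≠ d)
    (cd : c ≠ d) (h1 : NCr a b c d) (h2 : NCr a d c b) :
    (cyc b a c ↔ ¬ cyc a b d) ∧ (cyc c d b ↔ cyc a b d) ∧ (cyc d c a ↔ ¬ cyc a b d) := by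
  have e1 : cyc a c b ↔ cyc a d b := h1.cyc_iff ac ad bc bd ab
  have e2 : cyc a c d ↔ cyc a b d := h2.cyc_iff ac ab cd.symm bd.symm ad
  have a1 : cyc b a c ↔ ¬ cyc a b d :=
    cyc_rot.trans (e1.trans (cyc_rot.trans (cyc_not ab bd ad).symm))
  have a3 : cyc d c a ↔ ¬ cyc a b d := (cyc_not ac cd ad).symm.trans (not_congr e2)
  clear h1 h2
  refine ⟨a1, ⟨fun h => ?_, fun h => ?_⟩, a3⟩
  · by_contra hc
    have t1 : cyc a c b := cyc_rot.1 (a1.2 hc)
    have t2 : cyc a d c := cyc_rot.2 (a3.2 hc)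
    exact cyc_asymm (cyc_trans t2 t1) h
  · have t1 : cyc a c d := e2.2 h
    have t2 : ¬ cyc b a c := fun g => a1.1 g h
    have t3 : cyc a b c := cyc_rot.1 ((cyc_not ab.symm ac bc).1 t2)
    exact cyc_rot.1 (cyc_trans t3 t1)

theorem cyc_neg {x y z : ℤ} : cyc (-x) (-y) (-z) ↔ cyc z y x := by
  unfold cyc; constructor <;> intro <;> omega

/-- Rotation of the cut point. -/
theorem cyc_shift {V B x y z : ℤ} (hx : -B ≤ x ∧ x ≤ B) (hy : -B ≤ y ∧ y ≤ B)
    (hz : -B ≤ z ∧ z ≤ B) :
    cyc (if x < V then x + (2 * B + 1) else x) (if y < V then y + (2 * B + 1) else y)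
      (if z < V then z + (2 * B + 1) else z) ↔ cyc x y z := by
  unfold cyc
  split_ifs <;> constructor <;> intro <;> omega

end cyclic

section change

variable {pos pos' : X → ℤ} {col : X → Bool} {S : Finset X}

theorem IsSt.congr {n : X → X}
    (hc : ∀ x ∈ S, ∀ y ∈ S, ∀ z ∈ S,
      (cyc (pos' x) (pos' y) (pos' z) ↔ cyc (pos x) (pos y) (pos z)))
    (h : IsSt pos col S n) : IsSt pos' col S n where
  mem := h.mem
  inv := h.inv
  col := h.col
  nc := by
    intro x hx y hy ⟨g1, g2, g3⟩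
    have hnx := h.mem x hx
    have hny := h.mem y hy
    have c1 := (hc x hx y hy _ hnx).1 (Or.inl ⟨g1, g2⟩)
    have c2 := (hc _ hnx _ hny x hx).1 (Or.inr (Or.inr ⟨by omega, g3⟩))
    exact (h.ncr hx hy).not_cross c1 c2

theorem Ok.congr {n : X → X} {e : Lab X}
    (hc : ∀ x ∈ S, ∀ y ∈ S, ∀ z ∈ S,
      (cyc (pos' x) (pos' y) (pos' z) ↔ cyc (pos x) (pos y) (pos z)))
    (h : IsSt pos col S n) (k : Ok pos col S n e) : Ok pos' col S n e :=
  ⟨k.ha, k.hc, k.hab, k.hcd, k.hac, k.hcol,
    (hc _ k.ha _ (k.hb h) _ (k.hd h)).trans k.sg, ((h.act k).congr hc).nc⟩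

theorem Good.congr
    (hc : ∀ x ∈ S, ∀ y ∈ S, ∀ z ∈ S,
      (cyc (pos' x) (pos' y) (pos' z) ↔ cyc (pos x) (pos y) (pos z)))
    (L : List (Lab X)) : ∀ n : X → X, IsSt pos col S n → Good pos col S n L →
      Good pos' col S n L := by
  induction L with
  | nil => intro n _ _; trivial
  | cons e L ih => intro n h hg; exact ⟨hg.1.congr hc h, ih _ (h.act hg.1) hg.2⟩

theorem Mov.congr {m : X → X} {L : List (Lab X)} (hinj' : Set.InjOn pos' S)
    (hc : ∀ x ∈ S, ∀ y ∈ S, ∀ z ∈ S,
      (cyc (pos' x) (pos' y) (pos' z) ↔ cyc (pos x) (pos y) (pos z)))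
    (h : Mov pos col S m L) : Mov pos' col S m L :=
  ⟨hinj', h.st.congr hc, h.good.congr hc L m h.st, h.closed, h.len, h.trans⟩

/-- Put the cut point just before `v`. -/
theorem cut_first (hinj : Set.InjOn pos S) {v : X} :
    ∃ q : X → ℤ, Set.InjOn q S ∧ (∀ x ∈ S, x ≠ v → v ∈ S → q v < q x) ∧
      (∀ x ∈ S, ∀ y ∈ S, ∀ z ∈ S,
        (cyc (q x) (q y) (q z) ↔ cyc (pos x) (pos y) (pos z))) := by
  obtain ⟨B, hB⟩ := (S.image (fun x => |pos x|)).exists_le
  have hB' : ∀ x ∈ S, -B ≤ pos x ∧ pos x ≤ B := by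
    intro x hx
    have := hB _ (Finset.mem_image_of_mem _ hx)
    exact abs_le.1 this
  refine ⟨fun x => if pos x < pos v then pos x + (2 * B + 1) else pos x, ?_, ?_, ?_⟩
  · intro x hx y hy hxy
    have h1 := hB' x hx
    have h2 := hB' y hy
    apply hinj hx hy
    simp only at hxy
    split_ifs at hxy <;> omega
  · intro x hx hxv hv
    have h1 := hB' x hx
    have h2 := hB' v hv
    have h3 : pos x ≠ pos v := fun g => hxv (hinj hx hv g)
    simp only
    split_ifs <;> omega
  · intro x hx y hy z hz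
    exact cyc_shift (hB' x hx) (hB' y hy) (hB' z hz)

/-- Change of sign. -/
def fl (e : Lab X) : Lab X := ⟨e.a, e.b, e.c, e.d, !e.s⟩

theorem act_fl (e : Lab X) (n : X → X) : act (fl e) n = act e n := rfl

theorem run_fl (L : List (Lab X)) : ∀ n : X → X, run n (L.map fl) = run n L := by
  induction L with
  | nil => intro n; rfl
  | cons e L ih => intro n; exact ih _

theorem IsSt.neg {n : X → X} (h : IsSt pos col S n) : IsSt (fun x => - pos x) col S n where
  mem := h.mem
  inv := h.inv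
  col := h.col
  nc := by
    intro x hx y hy ⟨g1, g2, g3⟩
    simp only at g1 g2 g3
    exact (h.ncr hx hy).2.2.2.2.2.2.2 ⟨by omega, by omega, by omega⟩

theorem bool5 : ∀ {x y : Bool}, (x = !y) ↔ ¬ (x = y) := by decide

theorem Ok.neg {n : X → X} {e : Lab X} (hinj : Set.InjOn pos S) (h : IsSt pos col S n)
    (k : Ok pos col S n e) : Ok (fun x => - pos x) col S n (fl e) := by
  refine ⟨k.ha, k.hc, k.hab, k.hcd, k.hac, k.hcol, ?_, ((h.act k).neg).nc⟩
  simp only [fl]
  rw [cyc_neg, bool5, ← k.sg]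
  have hb := k.hb h
  have hd := k.hd h
  exact (cyc_not (fun g => k.ab h (hinj k.ha hb g)) (fun g => k.bd h (hinj hb hd g))
    (fun g => k.ad h (hinj k.ha hd g))).symm

theorem Good.neg (hinj : Set.InjOn pos S) (L : List (Lab X)) : ∀ n : X → X,
    IsSt pos col S n → Good pos col S n L → Good (fun x => - pos x) col S n (L.map fl) := by
  induction L with
  | nil => intro n _ _; trivial
  | cons e L ih =>
    intro n h hg
    exact ⟨hg.1.neg hinj h, ih (act e n) (h.act hg.1) hg.2⟩

theorem Mov.neg {m : X → X} {L : List (Lab X)} (h : Mov pos col S m L) :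
    Mov (fun x => - pos x) col S m (L.map fl) := by
  refine ⟨?_, h.st.neg, h.good.neg h.inj L m h.st, ?_, ?_, ?_⟩
  · intro x hx y hy hxy
    exact h.inj hx hy (neg_injective hxy)
  · rw [run_fl]; exact h.closed
  · rw [List.length_map]; exact h.len
  · intro p hp hpe
    exact h.trans p hp (fun e he => hpe (fl e) (List.mem_map_of_mem he))

theorem Conc.of_fl {L : List (Lab X)} (h : Conc col S (L.map fl)) : Conc col S L := by
  intro s p hp
  refine h (!s) p ?_
  intro e he hes
  obtain ⟨f, hf, rfl⟩ := List.mem_map.1 he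
  refine hp f hf ?_
  simpa [fl] using hes

/-- Rotation of the list. -/
theorem Mov.rot {m : X → X} {L M : List (Lab X)} (h : Mov pos col S m (L ++ M)) :
    Mov pos col S (run m L) (M ++ L) := by
  have hg := (good_append _ _ _).1 h.good
  have hc : run (run m L) M = m := by rw [← run_append]; exact h.closed
  refine ⟨h.inj, h.st.run L hg.1, ?_, ?_, ?_, ?_⟩
  · rw [good_append, hc]; exact ⟨hg.2, hg.1⟩
  · rw [run_append, hc]
  · have := h.len
    rw [List.length_append] at this ⊢
    omega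
  · intro p hp hpe
    refine h.trans p ?_ ?_
    · have := inv_run M (h.st.run L hg.1) hg.2 hp (fun e he => hpe e (by simp [he]))
      rwa [hc] at this
    · intro e he
      refine hpe e ?_
      simp only [List.mem_append] at he ⊢
      tauto

theorem Conc.of_mem {L M : List (Lab X)} (h : Conc col S L) (hm : ∀ e ∈ L, e ∈ M) :
    Conc col S M :=
  fun s p hp => h s p (fun e he => hp e (hm e he))

/-- Write the saddle as seen from `v`. -/
def nm (v : X) (e : Lab X) : Lab X :=
  if v = e.a then e else if v = e.b then ⟨e.b, e.a, e.d, e.c, e.s⟩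
  else if v = e.c then ⟨e.c, e.d, e.a, e.b, e.s⟩
  else if v = e.d then ⟨e.d, e.c, e.b, e.a, e.s⟩ else e

theorem nm_s (v : X) (e : Lab X) : (nm v e).s = e.s := by
  unfold nm; split_ifs <;> rfl

theorem nm_cnd (p : X → Prop) (v : X) (e : Lab X) : Cnd p (nm v e) ↔ Cnd p e := by
  unfold nm Cnd; split_ifs <;> simp only <;> tauto

theorem nm_touch (v z : X) (e : Lab X) : Touch (nm v e) z ↔ Touch e z := by
  unfold nm Touch; split_ifs <;> simp only <;> tauto

theorem nm_a {v : X} {e : Lab X} (h : Touch e v) : (nm v e).a = v := by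
  unfold nm
  split_ifs with h1 h2 h3 h4
  · exact h1.symm
  · exact h2.symm
  · exact h3.symm
  · exact h4.symm
  · exact absurd h (by unfold Touch; tauto)

theorem nm_act {n : X → X} {e : Lab X} (v : X) (h : IsSt pos col S n)
    (k : Ok pos col S n e) : act (nm v e) n = act e n := by
  have ab := k.ab h
  have ac := k.hac
  have ad := k.ad h
  have bc := k.bc h
  have bd := k.bd h
  have cd := k.cd h
  funext z
  by_cases ht : Touch e z
  · unfold nm
    rcases ht with rfl | rfl | rfl | rfl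
    · split_ifs <;> simp [act, ab, ac, ad]
    · split_ifs <;> simp [act, ab.symm, bc, bd]
    · split_ifs <;> simp [act, ac.symm, bc.symm, cd]
    · split_ifs <;> simp [act, ad.symm, bd.symm, cd.symm]
  · rw [act_other ht, act_other]
    rw [nm_touch]; exact ht

theorem nm_ok {n : X → X} {e : Lab X} (hinj : Set.InjOn pos S) (v : X)
    (h : IsSt pos col S n) (k : Ok pos col S n e) : Ok pos col S n (nm v e) := by
  have hnc : NC pos S (act (nm v e) n) := by rw [nm_act v h k]; exact k.nc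
  have ab := k.ab h
  have ac := k.hac
  have ad := k.ad h
  have bc := k.bc h
  have bd := k.bd h
  have cd := k.cd h
  have sa := k.ha
  have sb := k.hb h
  have sc := k.hc
  have sd := k.hd h
  have n1 := h.ncr sa sc
  have n2 := (h.act k).ncr sa sc
  rw [k.hab, k.hcd] at n1
  rw [act_a, k.act_c h] at n2
  have A := alt4 (fun g => ab (hinj sa sb g)) (fun g => ac (hinj sa sc g))
    (fun g => ad (hinj sa sd g)) (fun g => bc (hinj sb sc g)) (fun g => bd (hinj sb sd g))
    (fun g => cd (hinj sc sd g)) n1 n2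
  have cb : col e.b ≠ col e.a := k.colb h
  have cdd : col e.d ≠ col e.c := k.cold h
  have hcol := k.hcol
  have sg := k.sg
  have b6 : ∀ {x y z : Bool}, x ≠ y → ((x = z) ↔ ¬ (y = z)) := by decide
  unfold nm at hnc ⊢
  split_ifs at hnc ⊢ with h1 h2 h3 h4
  · exact k
  · refine ⟨sb, sd, k.mb h, k.md h, bd, ?_, ?_, hnc⟩
    · exact bool4 cb (by rw [hcol]; exact cdd)
    · simp only
      rw [A.1, b6 cb, sg]
  · refine ⟨sc, sa, k.hcd, k.hab, ac.symm, hcol.symm, ?_, hnc⟩
    simp only
    rw [A.2.1, ← hcol, sg]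
  · refine ⟨sd, sb, k.md h, k.mb h, bd.symm, ?_, ?_, hnc⟩
    · exact (bool4 cb (by rw [hcol]; exact cdd)).symm
    · simp only
      rw [A.2.2, b6 cdd, ← hcol, sg]
  · exact k

theorem nm_good (hinj : Set.InjOn pos S) (v : X) (L : List (Lab X)) : ∀ n : X → X,
    IsSt pos col S n → Good pos col S n L → Good pos col S n (L.map (nm v)) ∧
      run n (L.map (nm v)) = run n L := by
  induction L with
  | nil => intro n _ _; exact ⟨trivial, rfl⟩
  | cons e L ih =>
    intro n h hg
    have h1 := ih _ (h.act hg.1) hg.2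
    have h2 := nm_act v h hg.1
    refine ⟨⟨nm_ok hinj v h hg.1, ?_⟩, ?_⟩
    · rw [h2]; exact h1.1
    · show run (act (nm v e) n) (L.map (nm v)) = run (act e n) L
      rw [h2]; exact h1.2

theorem Mov.nm {m : X → X} {L : List (Lab X)} (v : X) (h : Mov pos col S m L) :
    Mov pos col S m (L.map (nm v)) := by
  obtain ⟨g1, g2⟩ := nm_good h.inj v L m h.st h.good
  refine ⟨h.inj, h.st, g1, g2.trans h.closed, by rw [List.length_map]; exact h.len, ?_⟩
  intro p hp hpe
  exact h.trans p hp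
    (fun e he => (nm_cnd p v e).1 (hpe (Pool.CM.nm v e) (List.mem_map_of_mem he)))

theorem Conc.of_nm {v : X} {L : List (Lab X)} (h : Conc col S (L.map (nm v))) :
    Conc col S L := by
  intro s p hp
  refine h s p ?_
  intro e he hes
  obtain ⟨f, hf, rfl⟩ := List.mem_map.1 he
  rw [nm_s] at hes
  exact (nm_cnd p v f).2 (hp f hf hes)

end change

section final

theorem iff3 {P Q R : Prop} (h1 : ¬ (P ↔ Q)) (h2 : ¬ (Q ↔ R)) : (R ↔ P) := by
  by_cases p : P <;> by_cases q : Q <;> by_cases r : R <;> simp_all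

variable {pos : X → ℤ} {col : X → Bool} {S : Finset X}

theorem val3_up
    (IH : ∀ (pos' : X → ℤ) (S' : Finset X) (m' : X → X) (L' : List (Lab X)),
      S'.card < S.card → Mov pos' col S' m' L' → Conc col S' L')
    {m : X → X} {v w1 u1 w2 b2 u2 w3 b3 u3 d3 : X} {s s2 s3 : Bool} {L M N : List (Lab X)}
    (hM : Mov pos col S m (⟨v, w1, u1, w2, s⟩ :: (L ++ ⟨v, b2, u2, w3, s2⟩ ::
      (M ++ ⟨v, b3, u3, d3, s3⟩ :: N))))
    (fL : Free v L) (fM : Free v M) (fN : Free v N)
    (hw1 : w1 ∈ S) (hw2 : w2 ∈ S) (hw3 : w3 ∈ S) (v1 : w1 ≠ v) (v2 : w2 ≠ v) (v3 : w3 ≠ v)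
    (h12 : cyc (pos v) (pos w1) (pos w2)) (h23 : cyc (pos v) (pos w2) (pos w3)) :
    Conc col S (⟨v, w1, u1, w2, s⟩ :: (L ++ ⟨v, b2, u2, w3, s2⟩ ::
      (M ++ ⟨v, b3, u3, d3, s3⟩ :: N))) := by
  obtain ⟨q, hq1, hq2, hq3⟩ := cut_first hM.inj (v := v)
  have hvS : v ∈ S := hM.good.1.ha
  rw [← hq3 v hvS w1 hw1 w2 hw2] at h12
  rw [← hq3 v hvS w2 hw2 w3 hw3] at h23
  have p1 := hq2 w1 hw1 v1 hvS
  have p2 := hq2 w2 hw2 v2 hvS
  have p3 := hq2 w3 hw3 v3 hvS
  refine val3 IH (fun x hx hxv => hq2 x hx hxv hvS) (hM.congr hq1 hq3) fL fM fN ?_ ?_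
  · unfold cyc at h12; omega
  · unfold cyc at h23; omega

theorem val2_any
    (IH : ∀ (pos' : X → ℤ) (S' : Finset X) (m' : X → X) (L' : List (Lab X)),
      S'.card < S.card → Mov pos' col S' m' L' → Conc col S' L')
    {m : X → X} {v w1 u1 w2 b2 u2 w3 : X} {s s2 : Bool} {L M : List (Lab X)}
    (hM : Mov pos col S m (⟨v, w1, u1, w2, s⟩ :: (L ++ ⟨v, b2, u2, w3, s2⟩ :: M)))
    (fL : Free v L) (fM : Free v M) :
    Conc col S (⟨v, w1, u1, w2, s⟩ :: (L ++ ⟨v, b2, u2, w3, s2⟩ :: M)) := by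
  obtain ⟨q, hq1, hq2, hq3⟩ := cut_first hM.inj (v := v)
  have k1 := hM.good.1
  have hvS : v ∈ S := k1.ha
  have hw1 : w1 ∈ S := k1.hb hM.st
  have hw2 : w2 ∈ S := k1.hd hM.st
  have hM' := hM.congr hq1 hq3
  have hvf : ∀ x ∈ S, x ≠ v → q v < q x := fun x hx hxv => hq2 x hx hxv hvS
  by_cases h12 : q w1 < q w2
  · exact delete IH hvf hM' fL fM h12
  · have h21 : q w2 < q w1 := by
      rcases lt_trichotomy (q w1) (q w2) with g | g | g
      · exact absurd g h12
      · exact absurd (hq1 hw1 hw2 g) (k1.bd hM.st)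
      · exact g
    have hrot : Mov q col S _ ((⟨v, b2, u2, w3, s2⟩ : Lab X) ::
        (M ++ (⟨v, w1, u1, w2, s⟩ :: L))) :=
      Mov.rot (L := (⟨v, w1, u1, w2, s⟩ : Lab X) :: L)
        (M := (⟨v, b2, u2, w3, s2⟩ : Lab X) :: M) hM'
    -- identify `b2 = w2`, `w3 = w1`
    have hb2 : b2 = w2 := by
      have := hrot.good.1.hab
      have e1 : run m ((⟨v, w1, u1, w2, s⟩ : Lab X) :: L) v = w2 := by
        show run (act _ m) L v = w2
        rw [run_free L _ fL]; exact act_a
      exact this.symm.trans e1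
    have hw3 : w3 = w1 := by
      have e0 := hM'.closed
      have e1 : run m ((⟨v, w1, u1, w2, s⟩ : Lab X) :: (L ++ ⟨v, b2, u2, w3, s2⟩ :: M)) v
          = w3 := by
        show run (act _ m) (L ++ ⟨v, b2, u2, w3, s2⟩ :: M) v = w3
        rw [run_append]
        show run (act _ _) M v = w3
        rw [run_free M _ fM]; exact act_a
      rw [e0] at e1
      exact e1.symm.trans k1.hab
    have hC := delete IH hvf hrot fM fL (by rw [hb2, hw3]; exact h21)
    refine hC.of_mem ?_
    intro e he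
    simp only [List.mem_cons, List.mem_append] at he ⊢
    tauto

theorem val3_any
    (IH : ∀ (pos' : X → ℤ) (S' : Finset X) (m' : X → X) (L' : List (Lab X)),
      S'.card < S.card → Mov pos' col S' m' L' → Conc col S' L')
    {m : X → X} {v w1 u1 w2 b2 u2 w3 b3 u3 d3 : X} {s s2 s3 : Bool} {L M N : List (Lab X)}
    (hM : Mov pos col S m (⟨v, w1, u1, w2, s⟩ :: (L ++ ⟨v, b2, u2, w3, s2⟩ ::
      (M ++ ⟨v, b3, u3, d3, s3⟩ :: N))))
    (fL : Free v L) (fM : Free v M) (fN : Free v N) :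
    Conc col S (⟨v, w1, u1, w2, s⟩ :: (L ++ ⟨v, b2, u2, w3, s2⟩ ::
      (M ++ ⟨v, b3, u3, d3, s3⟩ :: N))) := by
  have hst := hM.st
  have hg := hM.good
  have hinj := hM.inj
  have k1 := hg.1
  have hvS : v ∈ S := k1.ha
  have hw1 : w1 ∈ S := k1.hb hst
  have hw2 : w2 ∈ S := k1.hd hst
  have v1 : w1 ≠ v := (k1.ab hst).symm
  have v2 : w2 ≠ v := (k1.ad hst).symm
  have h12 : w1 ≠ w2 := k1.bd hst
  have g2 := (good_append L _ _).1 hg.2
  have st2 := (hst.act k1).run L g2.1
  have k2 := g2.2.1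
  have hb2 : b2 = w2 := by
    refine k2.hab.symm.trans ?_
    show run _ L v = w2
    rw [run_free L _ fL]; exact act_a
  have hw3 : w3 ∈ S := k2.hd st2
  have v3 : w3 ≠ v := (k2.ad st2).symm
  have h23 : w2 ≠ w3 := by rw [← hb2]; exact k2.bd st2
  have g3 := (good_append M _ _).1 g2.2.2
  have st3 := (st2.act k2).run M g3.1
  have k3 := g3.2.1
  have hb3 : b3 = w3 := by
    refine k3.hab.symm.trans ?_
    show run _ M v = w3
    rw [run_free M _ fM]; exact act_a
  have hd3 : d3 = w1 := by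
    have e0 := hM.closed
    have e1 : run m ((⟨v, w1, u1, w2, s⟩ : Lab X) :: (L ++ ⟨v, b2, u2, w3, s2⟩ ::
      (M ++ ⟨v, b3, u3, d3, s3⟩ :: N))) v = d3 := by
      show run (act _ m) (L ++ _) v = d3
      rw [run_append]
      show run (act _ _) (M ++ _) v = d3
      rw [run_append]
      show run (act _ _) N v = d3
      rw [run_free N _ fN]; exact act_a
    rw [e0] at e1
    exact e1.symm.trans k1.hab
  have h31 : w3 ≠ w1 := by rw [← hb3, ← hd3]; exact k3.bd st3
  subst hb2 hb3 hd3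
  have q : ∀ {x y : X}, x ∈ S → y ∈ S → x ≠ y → pos x ≠ pos y :=
    fun hx hy hxy g => hxy (hinj hx hy g)
  have nn : ∀ {x y : X}, x ∈ S → y ∈ S → x ≠ v → y ≠ v → x ≠ y →
      (¬ cyc (pos v) (pos x) (pos y) ↔ cyc (pos v) (pos y) (pos x)) := by
    intro x y hx hy xv yv hxy
    rw [cyc_not (q hvS hx xv.symm) (q hx hy hxy) (q hvS hy yv.symm)]
    exact cyc_rot.trans cyc_rot
  -- the two lemmas, for every rotation
  have up : ∀ {m : X → X} {w1 u1 w2 b2 u2 w3 b3 u3 d3 : X} {s s2 s3 : Bool}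
      {L M N : List (Lab X)}
      (_ : Mov pos col S m (⟨v, w1, u1, w2, s⟩ :: (L ++ ⟨v, b2, u2, w3, s2⟩ ::
        (M ++ ⟨v, b3, u3, d3, s3⟩ :: N))))
      (_ : Free v L) (_ : Free v M) (_ : Free v N)
      (_ : w1 ∈ S) (_ : w2 ∈ S) (_ : w3 ∈ S) (_ : w1 ≠ v) (_ : w2 ≠ v) (_ : w3 ≠ v)
      (_ : w1 ≠ w2) (_ : w2 ≠ w3)
      (_ : cyc (pos v) (pos w1) (pos w2) ↔ cyc (pos v) (pos w2) (pos w3)),
      Conc col S (⟨v, w1, u1, w2, s⟩ :: (L ++ ⟨v, b2, u2, w3, s2⟩ ::
        (M ++ ⟨v, b3, u3, d3, s3⟩ :: N))) := by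
    intro m w1 u1 w2 b2 u2 w3 b3 u3 d3 s s2 s3 L M N hM fL fM fN i1 i2 i3 j1 j2 j3 l1 l2 hc
    by_cases hu : cyc (pos v) (pos w1) (pos w2)
    · exact val3_up IH hM fL fM fN i1 i2 i3 j1 j2 j3 hu (hc.1 hu)
    · have hu' := (nn i1 i2 j1 j2 l1).1 hu
      have hu2 := (nn i2 i3 j2 j3 l2).1 (fun g => hu (hc.2 g))
      have hN := hM.neg
      have hfl : ∀ {K : List (Lab X)}, Free v K → Free v (K.map fl) := by
        intro K hK e he
        obtain ⟨f, hf, rfl⟩ := List.mem_map.1 he
        exact hK f hf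
      have hN' : Mov (fun x => - pos x) col S m (⟨v, w1, u1, w2, !s⟩ ::
          (L.map fl ++ ⟨v, b2, u2, w3, !s2⟩ :: (M.map fl ++ ⟨v, b3, u3, d3, !s3⟩ ::
            N.map fl))) := by
        simpa [fl] using hN
      have hC := val3_up IH hN' (hfl fL) (hfl fM) (hfl fN) i1 i2 i3 j1 j2 j3
        (by rw [cyc_neg]; exact cyc_rot.2 (cyc_rot.2 hu'))
        (by rw [cyc_neg]; exact cyc_rot.2 (cyc_rot.2 hu2))
      apply Conc.of_fl
      simpa [fl] using hC
  by_cases c1 : cyc (pos v) (pos d3) (pos b2) ↔ cyc (pos v) (pos b2) (pos b3)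
  · exact up hM fL fM fN hw1 hw2 hw3 v1 v2 v3 h12 h23 c1
  by_cases c2 : cyc (pos v) (pos b2) (pos b3) ↔ cyc (pos v) (pos b3) (pos d3)
  · -- start at the second step
    have hrot : Mov pos col S (run m ((⟨v, d3, u1, b2, s⟩ : Lab X) :: L))
        ((⟨v, b2, u2, b3, s2⟩ : Lab X) ::
        (M ++ ⟨v, b3, u3, d3, s3⟩ :: (N ++ ⟨v, d3, u1, b2, s⟩ :: L))) := by
      have := Mov.rot (L := (⟨v, d3, u1, b2, s⟩ : Lab X) :: L)
        (M := (⟨v, b2, u2, b3, s2⟩ : Lab X) :: (M ++ ⟨v, b3, u3, d3, s3⟩ :: N)) hM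
      simpa only [List.append_assoc, List.cons_append] using this
    refine (up hrot fM fN fL hw2 hw3 hw1 v2 v3 v1 h23 h31 c2).of_mem ?_
    intro e he
    simp only [List.mem_cons, List.mem_append] at he ⊢
    tauto
  · have c3 : cyc (pos v) (pos b3) (pos d3) ↔ cyc (pos v) (pos d3) (pos b2) := iff3 c1 c2
    have hrot : Mov pos col S
        (run m ((⟨v, d3, u1, b2, s⟩ : Lab X) :: (L ++ ⟨v, b2, u2, b3, s2⟩ :: M)))
        ((⟨v, b3, u3, d3, s3⟩ : Lab X) ::
        (N ++ ⟨v, d3, u1, b2, s⟩ :: (L ++ ⟨v, b2, u2, b3, s2⟩ :: M))) := by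
      have := Mov.rot (L := (⟨v, d3, u1, b2, s⟩ : Lab X) :: (L ++ ⟨v, b2, u2, b3, s2⟩ :: M))
        (M := (⟨v, b3, u3, d3, s3⟩ : Lab X) :: N) (by
          simpa only [List.append_assoc, List.cons_append] using hM)
      simpa only [List.append_assoc, List.cons_append] using this
    refine (up hrot fN fL fM hw3 hw1 hw2 v3 v1 v2 h31 h12 c3).of_mem ?_
    intro e he
    simp only [List.mem_cons, List.mem_append] at he ⊢
    tauto

end final

section mainth

variable {pos : X → ℤ} {col : X → Bool} {S : Finset X}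

/-- Number of saddles at `v`. -/
def cnt (L : List (Lab X)) (v : X) : ℕ := L.countP (fun e => decide (Touch e v))

theorem cnt_cons (e : Lab X) (L : List (Lab X)) (v : X) :
    cnt (e :: L) v = cnt L v + if Touch e v then 1 else 0 := by
  unfold cnt
  rw [List.countP_cons]
  simp

theorem sum_cnt (S : Finset X) (L : List (Lab X)) : ∑ v ∈ S, cnt L v ≤ 4 * L.length := by
  induction L with
  | nil => simp [cnt]
  | cons e L ih =>
    simp only [cnt_cons]
    rw [Finset.sum_add_distrib, List.length_cons]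
    have h1 : ∑ v ∈ S, (if Touch e v then 1 else 0) ≤ 4 := by
      rw [← Finset.card_filter]
      have h2 : S.filter (fun v => Touch e v) ⊆ {e.a, e.b, e.c, e.d} := by
        intro z hz
        have := (Finset.mem_filter.1 hz).2
        unfold Touch at this
        simpa using this
      exact (Finset.card_le_card h2).trans Finset.card_le_four
    omega

theorem free_of_cnt {L : List (Lab X)} {v : X} (h : cnt L v = 0) : Free v L := by
  induction L with
  | nil => intro e he; simp at he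
  | cons e L ih =>
    rw [cnt_cons] at h
    intro f hf
    rcases List.mem_cons.1 hf with rfl | hf
    · intro g; rw [if_pos g] at h; omega
    · exact ih (by omega) f hf

theorem split_cnt {L : List (Lab X)} {v : X} (h : 0 < cnt L v) :
    ∃ A e B, L = A ++ e :: B ∧ Free v A ∧ Touch e v ∧ cnt L v = cnt B v + 1 := by
  induction L with
  | nil => simp [cnt] at h
  | cons e L ih =>
    by_cases g : Touch e v
    · refine ⟨[], e, L, rfl, ?_, g, ?_⟩
      · intro f hf; simp at hf
      · rw [cnt_cons, if_pos g]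
    · rw [cnt_cons, if_neg g] at h
      obtain ⟨A, e', B, h1, h2, h3, h4⟩ := ih h
      refine ⟨e :: A, e', B, by rw [h1]; rfl, ?_, h3, by rw [cnt_cons, if_neg g]; exact h4⟩
      intro f hf
      rcases List.mem_cons.1 hf with rfl | hf
      · exact g
      · exact h2 f hf

theorem cnt_nm (v : X) (L : List (Lab X)) : cnt (L.map (nm v)) v = cnt L v := by
  induction L with
  | nil => rfl
  | cons e L ih =>
    rw [List.map_cons, cnt_cons, cnt_cons, ih]
    congr 1
    by_cases g : Touch e v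
    · rw [if_pos g, if_pos ((nm_touch v v e).2 g)]
    · rw [if_neg g, if_neg (fun h => g ((nm_touch v v e).1 h))]

theorem free_append {v : X} {L M : List (Lab X)} (h1 : Free v L) (h2 : Free v M) :
    Free v (L ++ M) := by
  intro e he
  rcases List.mem_append.1 he with he | he
  · exact h1 e he
  · exact h2 e he

theorem main_aux (col : X → Bool) : ∀ (k : ℕ) (pos : X → ℤ) (S : Finset X) (m : X → X)
    (L : List (Lab X)), S.card = k → Mov pos col S m L → Conc col S L := by
  intro k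
  induction k using Nat.strong_induction_on with
  | _ k IH0 =>
  intro pos S m L hk hM
  have IH : ∀ (pos' : X → ℤ) (S' : Finset X) (m' : X → X) (L' : List (Lab X)),
      S'.card < S.card → Mov pos' col S' m' L' → Conc col S' L' :=
    fun pos' S' m' L' h h' => IH0 _ (hk ▸ h) pos' S' m' L' rfl h'
  have hlen := hM.len
  by_cases h2 : S.card = 2
  · -- two points
    intro t p _ x hx y hy hxy
    by_cases hne : x = y
    · rw [hne]
    exfalso
    have hmx := hM.st.mem x hx
    have hmne := hM.st.ne hx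
    have hmc := hM.st.col x hx
    have : m x = y := by
      by_contra hne2
      have hsub : ({x, y, m x} : Finset X) ⊆ S := by
        intro z hz
        simp only [Finset.mem_insert, Finset.mem_singleton] at hz
        rcases hz with rfl | rfl | rfl <;> assumption
      have hcard : ({x, y, m x} : Finset X).card = 3 :=
        Finset.card_eq_three.2 ⟨x, y, m x, hne, hmne.symm, fun g => hne2 g.symm, rfl⟩
      have := Finset.card_le_card hsub
      omega
    rw [this] at hmc
    exact hmc hxy.symm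
  -- a point with at most three saddles
  have hex : ∃ v ∈ S, cnt L v ≤ 3 := by
    by_contra hcon
    push Not at hcon
    have h1 : ∑ v ∈ S, 4 ≤ ∑ v ∈ S, cnt L v := Finset.sum_le_sum (fun v hv => hcon v hv)
    have h3 := sum_cnt S L
    rw [Finset.sum_const, smul_eq_mul] at h1
    omega
  obtain ⟨v, hvS, hv3⟩ := hex
  rw [← cnt_nm] at hv3
  have hM' := hM.nm v
  apply Conc.of_nm (v := v)
  have hnorm : ∀ e ∈ L.map (nm v), Touch e v → e.a = v := by
    intro e he ht
    obtain ⟨f, hf, rfl⟩ := List.mem_map.1 he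
    exact nm_a ((nm_touch v v f).1 ht)
  generalize L.map (nm v) = L' at hv3 hM' hnorm
  clear hM
  by_cases c0 : cnt L' v = 0
  · -- no saddle at `v`
    exfalso
    have hf := free_of_cnt c0
    obtain ⟨x, hx, hx1, hx2⟩ : ∃ x ∈ S, x ≠ v ∧ x ≠ m v := by
      by_contra hcon
      push Not at hcon
      have hsub : S ⊆ {v, m v} := by
        intro z hz
        by_cases g : z = v
        · simp [g]
        · simp [hcon z hz g]
      have := (Finset.card_le_card hsub).trans Finset.card_le_two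
      have h5 := hM'.len
      omega
    have hst := hM'.st
    have hg := hM'.good
    have := hM'.trans (fun z => z = v ∨ z = m v) (by
      intro z hz
      constructor
      · rintro (rfl | rfl)
        · exact Or.inr rfl
        · exact Or.inl (hst.inv v)
      · rintro (g | g)
        · right; rw [← g, hst.inv]
        · left; rw [← hst.inv z, g, hst.inv]) (by
      intro e he
      have fv := hf e he
      obtain ⟨M1, M2, rfl⟩ := List.append_of_mem he
      rw [good_append] at hg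
      have q0 := hst.run M1 hg.1
      have q1 : run m M1 v = m v :=
        run_free M1 m (fun f hf' => hf f (by simp [hf']))
      have fmv : ¬ Touch e (m v) := by
        rw [← q1]; exact hg.2.1.touch_m q0 fv
      unfold Touch at fv fmv
      push Not at fv fmv
      refine ⟨iff_of_false ?_ ?_, iff_of_false ?_ ?_⟩
      · rintro (g | g)
        · exact fv.1 g.symm
        · exact fmv.1 g.symm
      · rintro (g | g)
        · exact fv.2.2.1 g.symm
        · exact fmv.2.2.1 g.symm
      · rintro (g | g)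
        · exact fv.2.1 g.symm
        · exact fmv.2.1 g.symm
      · rintro (g | g)
        · exact fv.2.2.2 g.symm
        · exact fmv.2.2.2 g.symm) v hvS x hx
    have h6 := this.1 (Or.inl rfl)
    rcases h6 with h6 | h6
    · exact hx1 h6
    · exact hx2 h6
  obtain ⟨A, e1, B, rfl, fA, t1, n1⟩ := split_cnt (Nat.pos_of_ne_zero c0)
  have a1 : e1.a = v := hnorm e1 (by simp) t1
  obtain ⟨a1', b1, c1, d1, s1⟩ := e1
  simp only at a1
  subst a1
  have hR : Mov pos col S (run m A) (⟨a1', b1, c1, d1, s1⟩ :: (B ++ A)) := by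
    have := hM'.rot
    simpa only [List.cons_append] using this
  by_cases cB : cnt B a1' = 0
  · exfalso
    have fB := free_of_cnt cB
    have e0 := hR.closed
    have e2 : run (run m A) (⟨a1', b1, c1, d1, s1⟩ :: (B ++ A)) a1' = d1 := by
      show run (act _ _) (B ++ A) a1' = d1
      rw [run_free _ _ (free_append fB fA)]; exact act_a
    rw [e0] at e2
    have e3 := hR.good.1.hab
    exact hR.good.1.bd hR.st (e3.symm.trans e2)
  obtain ⟨B1, e2, C, rfl, fB1, t2, n2⟩ := split_cnt (Nat.pos_of_ne_zero cB)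
  have a2 : e2.a = a1' := hnorm e2 (by simp) t2
  obtain ⟨a2', b2, c2, d2, s2⟩ := e2
  simp only at a2
  subst a2
  by_cases cC : cnt C a2' = 0
  · have fC := free_of_cnt cC
    have hR' : Mov pos col S (run m A) (⟨a2', b1, c1, d1, s1⟩ ::
        (B1 ++ ⟨a2', b2, c2, d2, s2⟩ :: (C ++ A))) := by
      simpa only [List.append_assoc, List.cons_append] using hR
    refine (val2_any IH hR' fB1 (free_append fC fA)).of_mem ?_
    intro e he
    simp only [List.mem_cons, List.mem_append] at he ⊢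
    tauto
  obtain ⟨C1, e3, D, rfl, fC1, t3, n3⟩ := split_cnt (Nat.pos_of_ne_zero cC)
  have a3 : e3.a = a2' := hnorm e3 (by simp) t3
  obtain ⟨a3', b3, c3, d3, s3⟩ := e3
  simp only at a3
  subst a3
  have fD : Free a3' D := free_of_cnt (by omega)
  have hR' : Mov pos col S (run m A) (⟨a3', b1, c1, d1, s1⟩ ::
      (B1 ++ ⟨a3', b2, c2, d2, s2⟩ :: (C1 ++ ⟨a3', b3, c3, d3, s3⟩ :: (D ++ A)))) := by
    simpa only [List.append_assoc, List.cons_append] using hR
  refine (val3_any IH hR' fB1 fC1 (free_append fD fA)).of_mem ?_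
  intro e he
  simp only [List.mem_cons, List.mem_append] at he ⊢
  tauto

/-- Combinatorial Bennequin theorem for spheres, list form. -/
theorem list_movie {m : X → X} {L : List (Lab X)} (h : Mov pos col S m L) : Conc col S L :=
  main_aux col _ pos S m L rfl h

end mainth

section functional

/-- Fewer than `|V| - 1` edges do not connect `V`. -/
theorem bridge {V : Type*} [Fintype V] {ι : Type*} (E : Finset ι) (f g : ι → V)
    (h : E.card + 1 < Fintype.card V) :
    ∃ p : V → Prop, (∀ i ∈ E, (p (f i) ↔ p (g i))) ∧ ∃ x y, p x ∧ ¬ p y := by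
  classical
  have hne : Nonempty V := by
    rw [← Fintype.card_pos_iff]; omega
  obtain ⟨v0⟩ := hne
  let φ : (V → ZMod 2) →ₗ[ZMod 2] ((E → ZMod 2) × ZMod 2) :=
    { toFun := fun u => (fun i => u (f i.1) - u (g i.1), u v0)
      map_add' := by
        intro u w
        refine Prod.ext ?_ ?_
        · funext i; simp only [Pi.add_apply, Prod.fst_add]; ring
        · simp
      map_smul' := by
        intro r u
        refine Prod.ext ?_ ?_
        · funext i
          simp only [Pi.smul_apply, smul_eq_mul, Prod.smul_fst, RingHom.id_apply]; ring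
        · simp }
  have hk : LinearMap.ker φ ≠ ⊥ := by
    apply LinearMap.ker_ne_bot_of_finrank_lt
    rw [Module.finrank_prod, Module.finrank_fintype_fun_eq_card,
      Module.finrank_fintype_fun_eq_card, Module.finrank_self, Fintype.card_coe]
    exact h
  obtain ⟨u, hu, hu0⟩ := (Submodule.ne_bot_iff _).1 hk
  have hφ : φ u = 0 := hu
  have h1 : ∀ i ∈ E, u (f i) = u (g i) := by
    intro i hi
    have := congrFun (congrArg Prod.fst hφ) ⟨i, hi⟩
    exact sub_eq_zero.1 this
  have h2 : u v0 = 0 := congrArg Prod.snd hφ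
  obtain ⟨x, hx⟩ : ∃ x, u x ≠ 0 := by
    by_contra hc
    push Not at hc
    exact hu0 (funext hc)
  exact ⟨fun x => u x ≠ 0, fun i hi => by simp only; rw [h1 i hi], x, v0, hx, fun g => g h2⟩

/-- The exchange of two points and a sum. -/
theorem swap_sum {V : Type*} [Fintype V] [DecidableEq V] (P H : V → ℤ) (a b : V)
    (hab : a ≠ b) :
    (∑ x, P x * H (Equiv.swap a b x)) - ∑ x, P x * H x = (P a - P b) * (H b - H a) := by
  have h1 : ∑ x, P x * H (Equiv.swap a b x) = ∑ x, P (Equiv.swap a b x) * H x := by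
    rw [← Equiv.sum_comp (Equiv.swap a b)]
    simp
  rw [h1, ← Finset.sum_sub_distrib]
  have h2 : ∀ x ∈ Finset.univ, x ∉ ({a, b} : Finset V) →
      P (Equiv.swap a b x) * H x - P x * H x = 0 := by
    intro x _ hx
    simp only [Finset.mem_insert, Finset.mem_singleton, not_or] at hx
    rw [Equiv.swap_apply_of_ne_of_ne hx.1 hx.2, sub_self]
  rw [← Finset.sum_subset (Finset.subset_univ _) h2, Finset.sum_pair hab]
  rw [Equiv.swap_apply_left, Equiv.swap_apply_right]
  ring

/-- The function form of the data. -/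
structure FM {X : Type*} [Fintype X] [DecidableEq X] (q : X → ℤ) (col : X → Bool) (T : ℕ)
    (m : ℕ → X → X) (sg : ℕ → Bool) (K : Finset ℕ) : Prop where
  st : ∀ i ≤ T, IsSt q col Finset.univ (m i)
  id : ∀ i < T, i ∉ K → m (i + 1) = m i
  step : ∀ i < T, i ∈ K → ∃ a c, a ≠ c ∧ col a = true ∧ col c = true ∧
      m (i + 1) a = m i c ∧ m (i + 1) c = m i a ∧
      (∀ z, col z = true → z ≠ a → z ≠ c → m (i + 1) z = m i z) ∧
      (sg i = true ↔ cyc (q a) (q (m i a)) (q (m i c)))

variable {Y : Type*} [Fintype Y] [DecidableEq Y] {q : Y → ℤ} {col : Y → Bool} {T : ℕ}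
  {m : ℕ → Y → Y} {sg : ℕ → Bool} {K : Finset ℕ}

theorem FM.lab (h : FM q col T m sg K) {i : ℕ} (hi : i < T) (hK : i ∈ K) :
    ∃ e : Lab Y, Ok q col Finset.univ (m i) e ∧ act e (m i) = m (i + 1) ∧ e.s = sg i ∧
      col e.a = true := by
  obtain ⟨a, c, hac, ha, hc, h1, h2, h3, h4⟩ := h.step i hi hK
  have st := h.st i hi.le
  have st' := h.st (i + 1) hi
  have ab : a ≠ m i a := (st.ne (Finset.mem_univ a)).symm
  have cd : c ≠ m i c := (st.ne (Finset.mem_univ c)).symm
  have bc : m i a ≠ c := by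
    intro g
    have := st.col a (Finset.mem_univ a)
    rw [g, hc, ha] at this
    exact this rfl
  have ad : a ≠ m i c := by
    intro g
    have := st.col c (Finset.mem_univ c)
    rw [← g, hc, ha] at this
    exact this rfl
  have bd : m i a ≠ m i c := by
    intro g
    apply hac
    rw [← st.inv a, g, st.inv]
  have eq : act (⟨a, m i a, c, m i c, sg i⟩ : Lab Y) (m i) = m (i + 1) := by
    funext z
    by_cases z1 : z = a
    · subst z1; rw [h1]; exact act_a
    by_cases z2 : z = m i a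
    · subst z2
      have : m (i + 1) (m i a) = c := by rw [← h2, st'.inv]
      rw [this]; simp [act, ab.symm]
    by_cases z3 : z = c
    · subst z3; rw [h2]; simp [act, hac.symm, bc.symm]
    by_cases z4 : z = m i c
    · subst z4
      have : m (i + 1) (m i c) = a := by rw [← h1, st'.inv]
      rw [this]; simp [act, ad.symm, bd.symm, cd.symm]
    have e0 : act (⟨a, m i a, c, m i c, sg i⟩ : Lab Y) (m i) z = m i z := by
      simp [act, z1, z2, z3, z4]
    rw [e0]
    cases hz : col z with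
    | true => exact (h3 z hz z1 z3).symm
    | false =>
      have hb : col (m (i + 1) z) = true := by
        have := st'.col z (Finset.mem_univ z)
        rw [hz] at this
        simpa using this
      have b1 : m (i + 1) z ≠ a := by
        intro g; apply z4; rw [← h1, ← g, st'.inv]
      have b2 : m (i + 1) z ≠ c := by
        intro g; apply z2; rw [← h2, ← g, st'.inv]
      have := h3 _ hb b1 b2
      rw [st'.inv] at this
      -- `z = m i (m (i+1) z)`
      conv_lhs => rw [this]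
      rw [st.inv]
  refine ⟨⟨a, m i a, c, m i c, sg i⟩, ⟨Finset.mem_univ _, Finset.mem_univ _, rfl, rfl, hac,
    by simp only; rw [ha, hc], ?_, ?_⟩, eq, rfl, ha⟩
  · simp only
    rw [← h4, ha]
    exact eq_comm
  · rw [eq]; exact st'.nc

theorem FM.list (h : FM q col T m sg K) : ∀ t ≤ T, ∃ L : List (Lab Y),
    Good q col Finset.univ (m 0) L ∧ run (m 0) L = m t ∧
    L.length ≤ (K.filter (· < t)).card ∧
    (∀ e ∈ L, ∃ i < t, i ∈ K ∧ e.s = sg i ∧ Ok q col Finset.univ (m i) e ∧
      act e (m i) = m (i + 1)) ∧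
    (∀ i < t, m (i + 1) = m i ∨
      ∃ e ∈ L, Ok q col Finset.univ (m i) e ∧ act e (m i) = m (i + 1)) := by
  intro t
  induction t with
  | zero =>
    intro _
    exact ⟨[], trivial, rfl, by simp, by simp, by intro i hi; omega⟩
  | succ t ih =>
    intro ht
    obtain ⟨L, l1, l2, l3, l4, l5⟩ := ih (by omega)
    by_cases hK : t ∈ K
    · obtain ⟨e, k1, k2, k3, k4⟩ := h.lab (i := t) (by omega) hK
      refine ⟨L ++ [e], ?_, ?_, ?_, ?_, ?_⟩
      · rw [good_append, l2]; exact ⟨l1, k1, trivial⟩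
      · rw [run_append, l2]; exact k2
      · rw [List.length_append, List.length_singleton]
        have : (K.filter (· < t)).card + 1 ≤ (K.filter (· < t + 1)).card := by
          have h1 : insert t (K.filter (· < t)) ⊆ K.filter (· < t + 1) := by
            intro z hz
            rw [Finset.mem_insert, Finset.mem_filter] at hz
            rw [Finset.mem_filter]
            rcases hz with rfl | ⟨hz1, hz2⟩
            · exact ⟨hK, by omega⟩
            · exact ⟨hz1, by omega⟩
          have h2 : t ∉ K.filter (· < t) := by simp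
          have := Finset.card_le_card h1
          rwa [Finset.card_insert_of_notMem h2] at this
        omega
      · intro f hf
        rcases List.mem_append.1 hf with hf | hf
        · obtain ⟨i, i1, i2⟩ := l4 f hf
          exact ⟨i, by omega, i2⟩
        · rw [List.mem_singleton] at hf
          subst hf
          exact ⟨t, by omega, hK, k3, k1, k2⟩
      · intro i hi
        by_cases hit : i = t
        · subst hit
          exact Or.inr ⟨e, by simp, k1, k2⟩
        · rcases l5 i (by omega) with g | ⟨f, hf, g⟩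
          · exact Or.inl g
          · exact Or.inr ⟨f, by simp [hf], g⟩
    · refine ⟨L, l1, ?_, ?_, ?_, ?_⟩
      · rw [l2, h.id t (by omega) hK]
      · refine l3.trans (Finset.card_le_card ?_)
        intro z hz
        rw [Finset.mem_filter] at hz ⊢
        exact ⟨hz.1, by omega⟩
      · intro f hf
        obtain ⟨i, i1, i2⟩ := l4 f hf
        exact ⟨i, by omega, i2⟩
      · intro i hi
        by_cases hit : i = t
        · subst hit; exact Or.inl (h.id i (by omega) hK)
        · exact l5 i (by omega)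

/-- For each sign the saddles connect both colour classes, function form. -/
theorem FM.conn (h : FM q col T m sg K) (hq : Function.Injective q) (hcl : m T = m 0)
    (hK : K.card + 2 ≤ Fintype.card Y)
    (htr : ∀ p : Y → Prop, (∀ i ≤ T, ∀ x, (p x ↔ p (m i x))) → ∀ x y, (p x ↔ p y))
    (s : Bool) (p : Y → Prop)
    (hp : ∀ i < T, i ∈ K → sg i = s → ∀ x, (p x ↔ p (m (i + 1) (m i x)))) :
    ∀ x y, col x = col y → (p x ↔ p y) := by
  obtain ⟨L, l1, l2, l3, l4, l5⟩ := h.list T le_rfl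
  have hM : Mov q col Finset.univ (m 0) L := by
    refine ⟨hq.injOn, h.st 0 (Nat.zero_le _), l1, l2.trans hcl, ?_, ?_⟩
    · have := Finset.card_filter_le K (· < T)
      rw [Finset.card_univ]; omega
    · intro p hp hpe x _ y _
      refine htr p ?_ x y
      intro i
      induction i with
      | zero => intro _ z; exact hp z (Finset.mem_univ z)
      | succ i ih =>
        intro hi z
        have ih' := ih (by omega)
        rcases l5 i (by omega) with g | ⟨e, he, k, g⟩
        · rw [g]; exact ih' z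
        · rw [← g]
          exact inv_act (h.st i (by omega)) k (fun z _ => ih' z) (hpe e he) z
            (Finset.mem_univ z)
  have C := list_movie hM s p (by
    intro e he hes
    obtain ⟨i, i1, i2, i3, k, g⟩ := l4 e he
    have st := h.st i i1.le
    have h1 := hp i i1 i2 (i3.symm.trans hes)
    refine ⟨?_, ?_⟩
    · have := h1 e.a
      rwa [k.hab, ← g, k.act_b st] at this
    · have := h1 e.b
      rwa [k.mb st, ← g, act_a] at this)
  exact fun x y hxy => C x (Finset.mem_univ x) y (Finset.mem_univ y) hxy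

end functional

end Pool.CM
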