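import Pool.Agent.Helper20.CM.Core

namespace Pool.CM

section last

variable {Y : Type*} [Fintype Y] [DecidableEq Y] {q : Y → ℤ} {col : Y → Bool} {T : ℕ}
  {m : ℕ → Y → Y} {sg : ℕ → Bool} {K : Finset ℕ}

theorem FM.edge (h : FM q col T m sg K) {i : ℕ} (hi : i < T) (hK : i ∈ K) :
    ∃ a b c d : Y, a ≠ c ∧ b ≠ d ∧ col a = true ∧ col c = true ∧ col b = false ∧
      col d = false ∧
      (∀ x, col x = true → m (i + 1) (m i x) = Equiv.swap a c x) ∧
      (∀ x, col x = false → m (i + 1) (m i x) = Equiv.swap b d x) ∧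
      (∀ x, col x = true → m i (m (i + 1) x) = Equiv.swap a c x) := by
  obtain ⟨e, k, he, -, ca⟩ := h.lab hi hK
  have st := h.st i hi.le
  have st' := h.st (i + 1) hi
  have cc : col e.c = true := by rw [← k.hcol]; exact ca
  have cb : col e.b = false := by
    have := k.colb st
    rw [ca] at this; simpa using this
  have cd : col e.d = false := by
    have := k.cold st
    rw [cc] at this; simpa using this
  have hb : ∀ x, col x = true → m (i + 1) (m i x) = Equiv.swap e.a e.c x := by
    intro x hx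
    rw [← he]
    by_cases x1 : x = e.a
    · rw [x1, k.hab, k.act_b st, Equiv.swap_apply_left]
    by_cases x2 : x = e.c
    · rw [x2, k.hcd, k.act_d st, Equiv.swap_apply_right]
    rw [Equiv.swap_apply_of_ne_of_ne x1 x2, act_other, st.inv]
    apply k.touch_m st
    unfold Touch
    push Not
    refine ⟨x1, ?_, x2, ?_⟩
    · rintro rfl; rw [hx] at cb; exact absurd cb (by decide)
    · rintro rfl; rw [hx] at cd; exact absurd cd (by decide)
  refine ⟨e.a, e.b, e.c, e.d, k.hac, k.bd st, ca, cc, cb, cd, hb, ?_, ?_⟩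
  · intro x hx
    rw [← he]
    by_cases x1 : x = e.b
    · rw [x1, k.mb st, act_a, Equiv.swap_apply_left]
    by_cases x2 : x = e.d
    · rw [x2, k.md st, k.act_c st, Equiv.swap_apply_right]
    rw [Equiv.swap_apply_of_ne_of_ne x1 x2, act_other, st.inv]
    apply k.touch_m st
    unfold Touch
    push Not
    refine ⟨?_, x1, ?_, x2⟩
    · rintro rfl; rw [hx] at ca; exact absurd ca (by decide)
    · rintro rfl; rw [hx] at cc; exact absurd cc (by decide)
  · intro x hx
    have hsx : col (Equiv.swap e.a e.c x) = true := by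
      by_cases x1 : x = e.a
      · rw [x1, Equiv.swap_apply_left]; exact cc
      by_cases x2 : x = e.c
      · rw [x2, Equiv.swap_apply_right]; exact ca
      rw [Equiv.swap_apply_of_ne_of_ne x1 x2]; exact hx
    have h1 := hb _ hsx
    rw [Equiv.swap_apply_self] at h1
    have h2 : m i (Equiv.swap e.a e.c x) = m (i + 1) x := by
      have := congrArg (m (i + 1)) h1
      rwa [st'.inv] at this
    rw [← h2, st.inv]

theorem ind_ne {p q : Prop} [Decidable p] [Decidable q] (h : ¬ (p ↔ q)) :
    (if p then (1 : ℤ) else 0) - (if q then 1 else 0) ≠ 0 := by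
  by_cases hp : p
  · have hq : ¬ q := fun hq => h (iff_of_true hp hq)
    rw [if_pos hp, if_neg hq]; decide
  · have hq : q := by
      by_contra hq; exact h (iff_of_false hp hq)
    rw [if_neg hp, if_pos hq]; decide

theorem ind_iff {p q : Prop} [Decidable p] [Decidable q]
    (h : (if p then (1 : ℤ) else 0) - (if q then 1 else 0) = 0) : (p ↔ q) := by
  by_contra hc
  exact ind_ne hc h

theorem ind_congr {p q : Prop} [Decidable p] [Decidable q] (h : p ↔ q) :
    (if p then (1 : ℤ) else 0) = (if q then 1 else 0) := by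
  by_cases hp : p
  · rw [if_pos hp, if_pos (h.1 hp)]
  · rw [if_neg hp, if_neg (fun hq => hp (h.2 hq))]

theorem telescope {f : ℕ → ℤ} {T j : ℕ} (hj : j < T)
    (h : ∀ i < T, i ≠ j → f (i + 1) = f i) (h0 : f T = f 0) : f (j + 1) = f j := by
  have h1 : ∀ i ≤ j, f i = f 0 := by
    intro i
    induction i with
    | zero => intro _; rfl
    | succ i ih =>
      intro hi
      rw [h i (by omega) (by omega)]; exact ih (by omega)
  have h2 : ∀ k, j + 1 + k ≤ T → f (j + 1 + k) = f (j + 1) := by
    intro k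
    induction k with
    | zero => intro _; rfl
    | succ k ih =>
      intro hk
      rw [← ih (by omega)]
      exact h (j + 1 + k) (by omega) (by omega)
  have h3 := h2 (T - (j + 1)) (by omega)
  rw [show j + 1 + (T - (j + 1)) = T by omega] at h3
  rw [← h3, h0, h1 j le_rfl]

theorem val_swap {V : Type*} [DecidableEq V] {P : V → Prop} (a b x : {v // P v}) :
    (Equiv.swap a b x).1 = Equiv.swap a.1 b.1 x.1 := by
  by_cases x1 : x = a
  · subst x1; simp
  by_cases x2 : x = b
  · subst x2; simp
  rw [Equiv.swap_apply_of_ne_of_ne x1 x2, Equiv.swap_apply_of_ne_of_ne]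
  · exact fun g => x1 (Subtype.ext g)
  · exact fun g => x2 (Subtype.ext g)

theorem FM.final (h : FM q col T m sg K) (hq : Function.Injective q) (hcl : m T = m 0)
    (hK : K.card + 2 ≤ Fintype.card Y)
    (htr : ∀ p : Y → Prop, (∀ i ≤ T, ∀ x, (p x ↔ p (m i x))) → ∀ x y, (p x ↔ p y))
    (g : ℕ → Y → Prop)
    (hg : ∀ i ≤ T, ∀ x, (g i x ↔ g i (m i x)))
    (hgw : ∀ i < T, sg i = true → ∀ b, col b = true → (g i b ↔ g (i + 1) b))
    (hgb : ∀ i < T, sg i = false → ∀ w, col w = false → (g i w ↔ g (i + 1) w))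
    (hgc : ∀ x, (g T x ↔ g 0 x)) :
    ∀ i ≤ T, ∀ j ≤ T, ∀ x y, (g i x ↔ g j y) := by
  classical
  have CF := h.conn hq hcl hK htr
  have colm : ∀ i ≤ T, ∀ x, col (m i x) ≠ col x := fun i hi x =>
    (h.st i hi).col x (Finset.mem_univ x)
  have minv : ∀ i ≤ T, ∀ x, m i (m i x) = x := fun i hi x => (h.st i hi).inv x
  have wb : ∀ i ≤ T, ∀ x, col x = false → col (m i x) = true := by
    intro i hi x hx
    have := colm i hi x
    rw [hx] at this; simpa using this
  have bw : ∀ i ≤ T, ∀ x, col x = true → col (m i x) = false := by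
    intro i hi x hx
    have := colm i hi x
    rw [hx] at this; simpa using this
  -- numbers of points
  let BP := {x : Y // col x = true}
  let WP := {x : Y // col x = false}
  have cBW : Fintype.card BP = Fintype.card WP := by
    refine Fintype.card_congr ⟨fun x => ⟨m 0 x.1, bw 0 (Nat.zero_le _) _ x.2⟩,
      fun x => ⟨m 0 x.1, wb 0 (Nat.zero_le _) _ x.2⟩, ?_, ?_⟩
    · intro x; exact Subtype.ext (minv 0 (Nat.zero_le _) _)
    · intro x; exact Subtype.ext (minv 0 (Nat.zero_le _) _)
  have cY : Fintype.card BP + Fintype.card WP = Fintype.card Y := by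
    have h1 := Fintype.card_subtype_compl (fun x : Y => col x = true)
    have h2 : Fintype.card {x : Y // ¬ col x = true} = Fintype.card WP := by
      refine Fintype.card_congr (Equiv.subtypeEquivRight ?_)
      intro x; simp
    have h3 := Fintype.card_subtype_le (fun x : Y => col x = true)
    rw [h2] at h1
    show Fintype.card {x : Y // col x = true} + Fintype.card WP = _
    omega
  -- the two sorts of saddles
  set Kb := K.filter (fun i => i < T ∧ sg i = false) with hKb
  set Kw := K.filter (fun i => i < T ∧ sg i = true) with hKw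
  have cK : Kb.card + Kw.card ≤ K.card := by
    rw [← Finset.card_union_of_disjoint]
    · apply Finset.card_le_card
      intro z hz
      rcases Finset.mem_union.1 hz with hz | hz
      · exact (Finset.mem_filter.1 hz).1
      · exact (Finset.mem_filter.1 hz).1
    · rw [Finset.disjoint_left]
      intro z hz hz'
      have h1 := (Finset.mem_filter.1 hz).2.2
      have h2 := (Finset.mem_filter.1 hz').2.2
      rw [h1] at h2; exact absurd h2 (by decide)
  -- white points, white saddles
  have cW : Fintype.card WP ≤ Kw.card + 1 := by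
    by_contra hcon
    have hE : ∀ i : {i // i ∈ Kw}, ∃ bd : WP × WP, ∀ x, col x = false →
        m (i.1 + 1) (m i.1 x) = Equiv.swap bd.1.1 bd.2.1 x := by
      intro i
      have hi := Finset.mem_filter.1 i.2
      obtain ⟨a, b, c, d, -, -, -, -, cb, cd, -, h8, -⟩ := h.edge hi.2.1 hi.1
      exact ⟨(⟨b, cb⟩, ⟨d, cd⟩), h8⟩
    choose bd hbd using hE
    obtain ⟨p, hp, x, y, hx, hy⟩ := bridge (Finset.univ : Finset {i // i ∈ Kw})
      (fun i => (bd i).1) (fun i => (bd i).2) (by
        rw [Finset.card_univ, Fintype.card_coe]; omega)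
    have := CF true (fun z => ∀ hz : col z = false, p ⟨z, hz⟩) (by
      intro i hi hiK hs z
      by_cases hz : col z = true
      · have hz' : col (m (i + 1) (m i z)) = true := wb _ hi _ (bw _ hi.le _ hz)
        constructor
        · intro _ hz2; rw [hz'] at hz2; exact absurd hz2 (by decide)
        · intro _ hz2; rw [hz] at hz2; exact absurd hz2 (by decide)
      · have hz : col z = false := by simpa using hz
        have hm : i ∈ Kw := Finset.mem_filter.2 ⟨hiK, hi, hs⟩
        have e1 := hbd ⟨i, hm⟩ z hz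
        simp only at e1
        have e2 := hp ⟨i, hm⟩ (Finset.mem_univ _)
        have hz' : col (m (i + 1) (m i z)) = false := bw _ hi _ (wb _ hi.le _ hz)
        have key : p ⟨z, hz⟩ ↔ p ⟨m (i + 1) (m i z), hz'⟩ := by
          by_cases z1 : z = (bd ⟨i, hm⟩).1.1
          · have e3 : m (i + 1) (m i z) = (bd ⟨i, hm⟩).2.1 := by
              rw [e1, z1, Equiv.swap_apply_left]
            have e4 : (⟨m (i + 1) (m i z), hz'⟩ : WP) = (bd ⟨i, hm⟩).2 := Subtype.ext e3
            have e5 : (⟨z, hz⟩ : WP) = (bd ⟨i, hm⟩).1 := Subtype.ext z1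
            rw [e4, e5]; exact e2
          by_cases z2 : z = (bd ⟨i, hm⟩).2.1
          · have e3 : m (i + 1) (m i z) = (bd ⟨i, hm⟩).1.1 := by
              rw [e1, z2, Equiv.swap_apply_right]
            have e4 : (⟨m (i + 1) (m i z), hz'⟩ : WP) = (bd ⟨i, hm⟩).1 := Subtype.ext e3
            have e5 : (⟨z, hz⟩ : WP) = (bd ⟨i, hm⟩).2 := Subtype.ext z2
            rw [e4, e5]; exact e2.symm
          have e3 : m (i + 1) (m i z) = z := by
            rw [e1, Equiv.swap_apply_of_ne_of_ne z1 z2]
          have e4 : (⟨m (i + 1) (m i z), hz'⟩ : WP) = ⟨z, hz⟩ := Subtype.ext e3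
          rw [e4]
        constructor
        · intro h1 _; exact key.1 (h1 hz)
        · intro h1 _; exact key.2 (h1 hz')) x.1 y.1 (by rw [x.2, y.2])
    exact hy ((this.1 (fun _ => hx)) y.2)
  -- edges of the black saddles
  have hE : ∀ i : {i // i ∈ Kb}, ∃ ac : BP × BP, ac.1 ≠ ac.2 ∧
      (∀ x, col x = true → m (i.1 + 1) (m i.1 x) = Equiv.swap ac.1.1 ac.2.1 x) ∧
      (∀ x, col x = true → m i.1 (m (i.1 + 1) x) = Equiv.swap ac.1.1 ac.2.1 x) := by
    intro i
    have hi := Finset.mem_filter.1 i.2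
    obtain ⟨a, b, c, d, hac, -, ca, cc, -, -, h7, -, h9⟩ := h.edge hi.2.1 hi.1
    exact ⟨(⟨a, ca⟩, ⟨c, cc⟩), fun g => hac (congrArg Subtype.val g), h7, h9⟩
  choose ac hac hac1 hac2 using hE
  -- connectivity through the black saddles
  have CB : ∀ p : BP → Prop, (∀ i : {i // i ∈ Kb}, (p (ac i).1 ↔ p (ac i).2)) →
      ∀ x y, (p x ↔ p y) := by
    intro p hp x y
    have := CF false (fun z => ∀ hz : col z = true, p ⟨z, hz⟩) (by
      intro i hi hiK hs z
      by_cases hz : col z = false
      · have hz' : col (m (i + 1) (m i z)) = false := bw _ hi _ (wb _ hi.le _ hz)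
        constructor
        · intro _ hz2; rw [hz'] at hz2; exact absurd hz2 (by decide)
        · intro _ hz2; rw [hz] at hz2; exact absurd hz2 (by decide)
      · have hz : col z = true := by simpa using hz
        have hm : i ∈ Kb := Finset.mem_filter.2 ⟨hiK, hi, hs⟩
        have e1 := hac1 ⟨i, hm⟩ z hz
        simp only at e1
        have e2 := hp ⟨i, hm⟩
        have hz' : col (m (i + 1) (m i z)) = true := wb _ hi _ (bw _ hi.le _ hz)
        have key : p ⟨z, hz⟩ ↔ p ⟨m (i + 1) (m i z), hz'⟩ := by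
          by_cases z1 : z = (ac ⟨i, hm⟩).1.1
          · have e3 : m (i + 1) (m i z) = (ac ⟨i, hm⟩).2.1 := by
              rw [e1, z1, Equiv.swap_apply_left]
            have e4 : (⟨m (i + 1) (m i z), hz'⟩ : BP) = (ac ⟨i, hm⟩).2 := Subtype.ext e3
            have e5 : (⟨z, hz⟩ : BP) = (ac ⟨i, hm⟩).1 := Subtype.ext z1
            rw [e4, e5]; exact e2
          by_cases z2 : z = (ac ⟨i, hm⟩).2.1
          · have e3 : m (i + 1) (m i z) = (ac ⟨i, hm⟩).1.1 := by
              rw [e1, z2, Equiv.swap_apply_right]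
            have e4 : (⟨m (i + 1) (m i z), hz'⟩ : BP) = (ac ⟨i, hm⟩).1 := Subtype.ext e3
            have e5 : (⟨z, hz⟩ : BP) = (ac ⟨i, hm⟩).2 := Subtype.ext z2
            rw [e4, e5]; exact e2.symm
          have e3 : m (i + 1) (m i z) = z := by
            rw [e1, Equiv.swap_apply_of_ne_of_ne z1 z2]
          have e4 : (⟨m (i + 1) (m i z), hz'⟩ : BP) = ⟨z, hz⟩ := Subtype.ext e3
          rw [e4]
        constructor
        · intro h1 _; exact key.1 (h1 hz)
        · intro h1 _; exact key.2 (h1 hz')) x.1 y.1 (by rw [x.2, y.2])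
    constructor
    · intro hx; exact this.1 (fun _ => hx) y.2
    · intro hy; exact this.2 (fun _ => hy) x.2
  -- steps which do not change `g` on black points
  have hsame : ∀ i < T, i ∉ Kb → ∀ b, col b = true → (g (i + 1) b ↔ g i b) := by
    intro i hi hn b hb
    cases hs : sg i with
    | true => exact (hgw i hi hs b hb).symm
    | false =>
      have hiK : i ∉ K := fun g' => hn (Finset.mem_filter.2 ⟨g', hi, hs⟩)
      rw [hg (i + 1) hi b, ← hgb i hi hs _ (bw _ hi _ hb), h.id i hi hiK, ← hg i hi.le]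
  have hswap : ∀ i : {i // i ∈ Kb}, ∀ b : BP,
      (g (i.1 + 1) b.1 ↔ g i.1 (Equiv.swap (ac i).1 (ac i).2 b).1) := by
    intro i b
    have hi := Finset.mem_filter.1 i.2
    rw [val_swap, ← hac2 i b.1 b.2, hg (i.1 + 1) hi.2.1 b.1,
      ← hgb i.1 hi.2.1 hi.2.2 _ (bw _ hi.2.1 _ b.2), hg i.1 hi.2.1.le]
  -- the key point
  have hkey : ∀ j : {i // i ∈ Kb}, (g j.1 (ac j).1.1 ↔ g j.1 (ac j).2.1) := by
    intro j
    obtain ⟨p, hp, x, y, hx, hy⟩ := bridge
      ((Finset.univ : Finset {i // i ∈ Kb}).erase j)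
      (fun i => (ac i).1) (fun i => (ac i).2) (by
        rw [Finset.card_erase_of_mem (Finset.mem_univ _), Finset.card_univ,
          Fintype.card_coe]
        have : 0 < Kb.card := Finset.card_pos.2 ⟨j.1, j.2⟩
        show Kb.card - 1 + 1 < Fintype.card BP
        omega)
    have hpj : ¬ (p (ac j).1 ↔ p (ac j).2) := by
      intro hcon
      refine hy ((CB p ?_ x y).1 hx)
      intro i
      by_cases hij : i = j
      · subst hij; exact hcon
      · exact hp i (Finset.mem_erase.2 ⟨hij, Finset.mem_univ _⟩)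
    set P : BP → ℤ := fun b => if p b then 1 else 0 with hP
    set H : ℕ → BP → ℤ := fun i b => if g i b.1 then 1 else 0 with hH
    set c : ℕ → ℤ := fun i => ∑ b, P b * H i b with hc
    have c0 : c T = c 0 := by
      simp only [hc]
      refine Finset.sum_congr rfl (fun b _ => ?_)
      have : H T b = H 0 b := ind_congr (hgc b.1)
      rw [this]
    have hHswap : ∀ i : {i // i ∈ Kb}, ∀ b,
        H (i.1 + 1) b = H i.1 (Equiv.swap (ac i).1 (ac i).2 b) := by
      intro i b
      exact ind_congr (hswap i b)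
    have hdiff : ∀ i : {i // i ∈ Kb}, c (i.1 + 1) - c i.1 =
        (P (ac i).1 - P (ac i).2) * (H i.1 (ac i).2 - H i.1 (ac i).1) := by
      intro i
      simp only [hc]
      rw [← swap_sum P (H i.1) (ac i).1 (ac i).2 (hac i)]
      congr 1
      refine Finset.sum_congr rfl (fun b _ => ?_)
      rw [hHswap]
    have hj := Finset.mem_filter.1 j.2
    have hcj : c (j.1 + 1) = c j.1 := by
      refine telescope hj.2.1 ?_ c0
      intro i hi hij
      by_cases hiK : i ∈ Kb
      · have h1 := hdiff ⟨i, hiK⟩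
        have h2 := hp ⟨i, hiK⟩ (Finset.mem_erase.2
          ⟨fun g' => hij (congrArg Subtype.val g'), Finset.mem_univ _⟩)
        have h3 : P (ac ⟨i, hiK⟩).1 = P (ac ⟨i, hiK⟩).2 := ind_congr h2
        rw [h3, sub_self, zero_mul] at h1
        simpa using sub_eq_zero.1 h1
      · simp only [hc]
        refine Finset.sum_congr rfl (fun b _ => ?_)
        have h1 := hsame i hi hiK b.1 b.2
        have : H (i + 1) b = H i b := ind_congr h1
        rw [this]
    have h1 := hdiff j
    rw [hcj, sub_self] at h1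
    have h2 : P (ac j).1 - P (ac j).2 ≠ 0 := ind_ne hpj
    have h3 : H j.1 (ac j).2 - H j.1 (ac j).1 = 0 := by
      rcases mul_eq_zero.1 h1.symm with h4 | h4
      · exact absurd h4 h2
      · exact h4
    exact (ind_iff h3).symm
  -- so `g` does not depend on time on black points
  have htime : ∀ i ≤ T, ∀ b : BP, (g i b.1 ↔ g 0 b.1) := by
    intro i
    induction i with
    | zero => intro _ b; exact Iff.rfl
    | succ i ih =>
      intro hi b
      rw [← ih (by omega) b]
      by_cases hiK : i ∈ Kb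
      · have h1 := hswap ⟨i, hiK⟩ b
        have h2 := hkey ⟨i, hiK⟩
        simp only at h1 h2
        rw [h1]
        by_cases b1 : b = (ac ⟨i, hiK⟩).1
        · rw [b1, Equiv.swap_apply_left]; exact h2.symm
        by_cases b2 : b = (ac ⟨i, hiK⟩).2
        · rw [b2, Equiv.swap_apply_right]; exact h2
        rw [Equiv.swap_apply_of_ne_of_ne b1 b2]
      · exact hsame i hi hiK b.1 b.2
  have hconst : ∀ x y : BP, (g 0 x.1 ↔ g 0 y.1) := by
    refine CB (fun b => g 0 b.1) ?_
    intro i
    have hi := Finset.mem_filter.1 i.2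
    have h1 := hkey i
    rw [htime i.1 hi.2.1.le, htime i.1 hi.2.1.le] at h1
    exact h1
  have hblack : ∀ i ≤ T, ∀ x, ∃ b : BP, (g i x ↔ g i b.1) := by
    intro i hi x
    cases hx : col x with
    | true => exact ⟨⟨x, hx⟩, Iff.rfl⟩
    | false => exact ⟨⟨m i x, wb i hi x hx⟩, hg i hi x⟩
  intro i hi j hj x y
  obtain ⟨b, hb⟩ := hblack i hi x
  obtain ⟨b', hb'⟩ := hblack j hj y
  rw [hb, hb', htime i hi, htime j hj]
  exact hconst b b'

end last

section top

/-- The rank of a position. -/
noncomputable def rk {X : Type*} [Fintype X] {α : Type*} [LinearOrder α] (pos : X → α) : X → ℤ :=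
  fun x => ((Finset.univ.filter (fun y => pos y < pos x)).card : ℤ)

theorem rk_lt {X : Type*} [Fintype X] {α : Type*} [LinearOrder α] (pos : X → α) (x y : X) :
    rk pos x < rk pos y ↔ pos x < pos y := by
  unfold rk
  rw [Nat.cast_lt]
  constructor
  · intro h
    by_contra hc
    push Not at hc
    have : (Finset.univ.filter (fun z => pos z < pos y)) ⊆
        (Finset.univ.filter (fun z => pos z < pos x)) := by
      intro z hz
      rw [Finset.mem_filter] at hz ⊢
      exact ⟨hz.1, lt_of_lt_of_le hz.2 hc⟩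
    have := Finset.card_le_card this
    omega
  · intro h
    apply Finset.card_lt_card
    refine ⟨?_, ?_⟩
    · intro z hz
      rw [Finset.mem_filter] at hz ⊢
      exact ⟨hz.1, hz.2.trans h⟩
    · intro hc
      have : x ∈ Finset.univ.filter (fun z => pos z < pos y) := by simp [h]
      have := hc this
      simp at this

theorem rk_cyc {X : Type*} [Fintype X] {α : Type*} [LinearOrder α] (pos : X → α) (x y z : X) :
    cyc (rk pos x) (rk pos y) (rk pos z) ↔ cyc (pos x) (pos y) (pos z) := by
  unfold cyc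
  simp only [rk_lt]

/-- **Theorem C** (circular movies).  A closed sequence of noncrossing perfect matchings
between black and white points of a circle, changing by at most `|X| - 2` saddles, with
connected union, has only one strand curve. -/
theorem circular_movie {X : Type*} [Fintype X] {α : Type*} [LinearOrder α]
    (pos : X → α) (hpos : Function.Injective pos) (col : X → Bool)
    (T : ℕ) (m : ℕ → X → X) (sg : ℕ → Bool) (K : Finset ℕ)
    (hinv : ∀ i ≤ T, ∀ x, m i (m i x) = x)
    (hcol : ∀ i ≤ T, ∀ x, col (m i x) ≠ col x)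
    (hnc : ∀ i ≤ T, ∀ x y,
      ¬ (pos x < pos y ∧ pos y < pos (m i x) ∧ pos (m i x) < pos (m i y)))
    (hclosed : m T = m 0)
    (hid : ∀ i < T, i ∉ K → m (i + 1) = m i)
    (hstep : ∀ i < T, i ∈ K → ∃ a c, a ≠ c ∧ col a = true ∧ col c = true ∧
      m (i + 1) a = m i c ∧ m (i + 1) c = m i a ∧
      (∀ z, col z = true → z ≠ a → z ≠ c → m (i + 1) z = m i z) ∧
      (sg i = true ↔ cyc (pos a) (pos (m i a)) (pos (m i c))))
    (hK : K.card + 2 ≤ Fintype.card X)
    (htrans : ∀ p : X → Prop, (∀ i ≤ T, ∀ x, p x ↔ p (m i x)) → ∀ x y, p x ↔ p y)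
    (g : ℕ → X → Prop)
    (hg : ∀ i ≤ T, ∀ x, g i x ↔ g i (m i x))
    (hgw : ∀ i < T, sg i = true → ∀ b, col b = true → (g i b ↔ g (i + 1) b))
    (hgb : ∀ i < T, sg i = false → ∀ w, col w = false → (g i w ↔ g (i + 1) w))
    (hgc : ∀ x, g T x ↔ g 0 x) :
    ∀ i ≤ T, ∀ j ≤ T, ∀ x y, g i x ↔ g j y := by
  classical
  have hFM : FM (rk pos) col T m sg K := by
    refine ⟨fun i hi => ⟨fun x _ => Finset.mem_univ _, hinv i hi, fun x _ => hcol i hi x, ?_⟩,
      hid, ?_⟩
    · intro x _ y _
      rw [rk_lt, rk_lt, rk_lt]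
      exact hnc i hi x y
    · intro i hi hiK
      obtain ⟨a, c, h1, h2, h3, h4, h5, h6, h7⟩ := hstep i hi hiK
      exact ⟨a, c, h1, h2, h3, h4, h5, h6, h7.trans (rk_cyc pos _ _ _).symm⟩
  have hq : Function.Injective (rk pos) := by
    intro x y hxy
    apply hpos
    rcases lt_trichotomy (pos x) (pos y) with h | h | h
    · have := (rk_lt pos x y).2 h; omega
    · exact h
    · have := (rk_lt pos y x).2 h; omega
  exact hFM.final hq hclosed hK htrans g hg hgw hgb hgc

/-- The mirror form: strands follow the black points when these go down. -/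
theorem circular_movie_mirror {X : Type*} [Fintype X] {α : Type*} [LinearOrder α]
    (pos : X → α) (hpos : Function.Injective pos) (col : X → Bool)
    (T : ℕ) (m : ℕ → X → X) (sg : ℕ → Bool) (K : Finset ℕ)
    (hinv : ∀ i ≤ T, ∀ x, m i (m i x) = x)
    (hcol : ∀ i ≤ T, ∀ x, col (m i x) ≠ col x)
    (hnc : ∀ i ≤ T, ∀ x y,
      ¬ (pos x < pos y ∧ pos y < pos (m i x) ∧ pos (m i x) < pos (m i y)))
    (hclosed : m T = m 0)
    (hid : ∀ i < T, i ∉ K → m (i + 1) = m i)
    (hstep : ∀ i < T, i ∈ K → ∃ a c, a ≠ c ∧ col a = true ∧ col c = true ∧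
      m (i + 1) a = m i c ∧ m (i + 1) c = m i a ∧
      (∀ z, col z = true → z ≠ a → z ≠ c → m (i + 1) z = m i z) ∧
      (sg i = true ↔ cyc (pos a) (pos (m i c)) (pos (m i a))))
    (hK : K.card + 2 ≤ Fintype.card X)
    (htrans : ∀ p : X → Prop, (∀ i ≤ T, ∀ x, p x ↔ p (m i x)) → ∀ x y, p x ↔ p y)
    (g : ℕ → X → Prop)
    (hg : ∀ i ≤ T, ∀ x, g i x ↔ g i (m i x))
    (hgw : ∀ i < T, sg i = true → ∀ b, col b = true → (g i b ↔ g (i + 1) b))
    (hgb : ∀ i < T, sg i = false → ∀ w, col w = false → (g i w ↔ g (i + 1) w))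
    (hgc : ∀ x, g T x ↔ g 0 x) :
    ∀ i ≤ T, ∀ j ≤ T, ∀ x y, g i x ↔ g j y := by
  refine circular_movie (fun x => OrderDual.toDual (pos x)) ?_ col T m sg K hinv hcol ?_
    hclosed hid ?_ hK htrans g hg hgw hgb hgc
  · intro x y hxy; exact hpos (OrderDual.toDual.injective hxy)
  · intro i hi x y ⟨h1, h2, h3⟩
    have := hnc i hi (m i y) (m i x)
    rw [hinv i hi, hinv i hi] at this
    exact this ⟨OrderDual.toDual_lt_toDual.1 h3, OrderDual.toDual_lt_toDual.1 h2,
      OrderDual.toDual_lt_toDual.1 h1⟩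
  · intro i hi hiK
    obtain ⟨a, c, h1, h2, h3, h4, h5, h6, h7⟩ := hstep i hi hiK
    refine ⟨a, c, h1, h2, h3, h4, h5, h6, h7.trans ?_⟩
    unfold cyc
    simp only [OrderDual.toDual_lt_toDual]
    tauto

end top

end Pool.CM
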